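import Pool.Agent.W_3e58c0_h78.Fin1

/-!
# Closed images and the class N(P), second part: basic definitions (helper78)

Here moves are pairs (locally finite open cover indexed by the points, point).
-/

set_option autoImplicit false

namespace Pool.Agent.W3e58c0b

open Set Topology

open Pool.Agent.W3e58c0h78 (InNP)

/-- A locally finite open cover indexed by the points of the space. -/
structure Cov (X : Type) [TopologicalSpace X] where
  /-- the sets -/
  U : X → Set X
  isOpen_U : ∀ a, IsOpen (U a)
  locallyFinite_U : LocallyFinite U
  cover_U : ∀ x, ∃ a, x ∈ U a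

variable {X : Type} [TopologicalSpace X]

open Classical in
/-- The cover consisting of one set, the whole space, with index `x₀`. -/
noncomputable def Cov.one (x₀ : X) : Cov X where
  U := fun a => if a = x₀ then univ else ∅
  isOpen_U := fun a => by split_ifs; exacts [isOpen_univ, isOpen_empty]
  locallyFinite_U := fun x => by
    refine ⟨univ, Filter.univ_mem, ?_⟩
    refine (finite_singleton x₀).subset ?_
    rintro a ⟨z, hz, -⟩
    by_contra hne
    have hne' : ¬ a = x₀ := hne
    simp only [hne', if_false] at hz
    exact hz
  cover_U := fun x => ⟨x₀, by simp⟩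

/-- A move: a cover and an index. -/
abbrev Mv (X : Type) [TopologicalSpace X] : Type := Cov X × X

/-- The open set of a move. -/
def oA (a : Mv X) : Set X := a.1.U a.2

/-- The closed set of a move. -/
def cA (a : Mv X) : Set X := closure (a.1.U a.2)

theorem isOpen_oA (a : Mv X) : IsOpen (oA a) := a.1.isOpen_U a.2

theorem isClosed_cA (a : Mv X) : IsClosed (cA a) := isClosed_closure

theorem oA_subset_cA (a : Mv X) : oA a ⊆ cA a := subset_closure

theorem mem_cA_one (x₀ x : X) : x ∈ cA (Cov.one x₀, x₀) := by
  unfold cA Cov.one
  simp

/-- The intersection of the open sets of the moves of a finite list. -/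
def oAs (t : List (Mv X)) : Set X := {x | ∀ a ∈ t, x ∈ oA a}

/-- The intersection of the closed sets of the moves of a finite list. -/
def cAs (t : List (Mv X)) : Set X := {x | ∀ a ∈ t, x ∈ cA a}

theorem isOpen_oAs (t : List (Mv X)) : IsOpen (oAs t) := by
  induction t with
  | nil => simp [oAs]
  | cons a t ih =>
    have : oAs (a :: t) = oA a ∩ oAs t := by
      ext x; simp [oAs]
    rw [this]
    exact (isOpen_oA a).inter ih

theorem isClosed_cAs (t : List (Mv X)) : IsClosed (cAs t) := by
  induction t with
  | nil => simp [cAs]
  | cons a t ih =>
    have : cAs (a :: t) = cA a ∩ cAs t := by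
      ext x; simp [cAs]
    rw [this]
    exact (isClosed_cA a).inter ih

theorem oAs_subset_cAs (t : List (Mv X)) : oAs t ⊆ cAs t :=
  fun _ hx a ha => oA_subset_cA a (hx a ha)

theorem cAs_append (s t : List (Mv X)) : cAs (s ++ t) = cAs s ∩ cAs t := by
  ext x
  simp only [cAs, List.mem_append, mem_inter_iff]
  constructor
  · intro h
    exact ⟨fun a ha => h a (Or.inl ha), fun a ha => h a (Or.inr ha)⟩
  · rintro ⟨h1, h2⟩ a (ha | ha)
    · exact h1 a ha
    · exact h2 a ha

/-- `Pre s τ`: the finite list `s` is an initial segment of the infinite sequence `τ`. -/
def Pre {A : Type} (s : List A) (τ : ℕ → A) : Prop := ∀ i, i < s.length → s[i]? = some (τ i)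

/-- Closed sets which are locally compact (in a form adapted to our use). -/
def LCS (L : Set X) : Prop :=
  IsClosed L ∧ ∀ x, ∃ V, IsOpen V ∧ x ∈ V ∧ IsCompact (closure V ∩ L)

/-- A winning strategy of the first player in the game in which the first player chooses closed
locally compact sets `L` and the second player decreasing closed sets `F` disjoint from them; the
first player wins if the sets `F` have empty intersection. The strategy is given by a machine. -/
structure Strat (X : Type) [TopologicalSpace X] where
  /-- the states -/
  St : Type
  /-- the initial state -/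
  init : St
  /-- the valid states -/
  inv : St → Prop
  /-- the move of the first player -/
  L : St → Set X
  /-- the next state after a move of the second player -/
  next : St → Set X → St
  inv_init : inv init
  inv_next : ∀ σ F, inv σ → IsClosed F → Disjoint F (L σ) → inv (next σ F)
  lcs : ∀ σ, inv σ → LCS (L σ)
  win : ∀ (σ : ℕ → St) (F : ℕ → Set X), σ 0 = init → (∀ n, IsClosed (F n)) →
    (∀ n, F (n + 1) ⊆ F n) → (∀ n, Disjoint (F n) (L (σ n))) →
    (∀ n, σ (n + 1) = next (σ n) (F n)) → ⋂ n, F n = ∅

/-- The list of the first `n` sets of a sequence, newest first. -/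
def hist (F : ℕ → Set X) : ℕ → List (Set X)
  | 0 => []
  | n + 1 => F n :: hist F n

/-- The first player has a winning strategy in the following game. In each inning the first player
chooses an open cover and a compact set (depending on the sets chosen so far by the second player),
then the second player chooses a closed set contained in the previous one and in a member of the
cover. The first player wins if the intersection of the closed sets is empty or contains a
point in the closure of the union of the compact sets. -/
def WGame (X : Type) [TopologicalSpace X] : Prop :=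
  ∃ (U : List (Set X) → Set (Set X)) (Q : List (Set X) → Set X),
    (∀ h, (∀ V ∈ U h, IsOpen V) ∧ ⋃₀ U h = univ) ∧ (∀ h, IsCompact (Q h)) ∧
    ∀ F : ℕ → Set X, (∀ n, IsClosed (F n)) → (∀ n, F (n + 1) ⊆ F n) →
      (∀ n, ∃ V ∈ U (hist F n), F n ⊆ V) → (⋂ n, F n).Nonempty →
      (closure (⋃ n, Q (hist F n)) ∩ ⋂ n, F n).Nonempty

end Pool.Agent.W3e58c0b
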