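import Pool.Agent.W_3e58c0b_h78.Basic

/-!
# The game of a map (helper78)
-/

set_option autoImplicit false

namespace Pool.Agent.W3e58c0b

open Set Topology

/-- The current closed set of a history. -/
def cur {X : Type} : List (Set X) → Set X
  | [] => univ
  | F :: _ => F

/-- The game of a map `f : X → Z`. In each inning the first player chooses an open cover and a compact
set `Q` of `X` (depending on the sets chosen so far by the second player), then the second player
chooses a closed set `F` contained in the previous one, `F'`, and in a member of the cover, such that
`f '' F` is disjoint from `f '' (Q ∩ F')`. The condition says that the first player has a strategy such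
that for every `z : Z` there is a point `x` over `z` such that in each play in which `x` is in all the
closed sets of the second player, the intersection of these closed sets contains a point in the closure
of the union of the compact sets of the first player. -/
def WGameMap {X Z : Type} [TopologicalSpace X] (f : X → Z) : Prop :=
  ∃ (U : List (Set X) → Set (Set X)) (Q : List (Set X) → Set X),
    (∀ h, (∀ V ∈ U h, IsOpen V) ∧ ⋃₀ U h = univ) ∧ (∀ h, IsCompact (Q h)) ∧
    ∀ z, ∃ x, f x = z ∧ ∀ F : ℕ → Set X, (∀ n, IsClosed (F n)) → (∀ n, F (n + 1) ⊆ F n) →
      (∀ n, x ∈ F n) → (∀ n, ∃ V ∈ U (hist F n), F n ⊆ V) →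
      (∀ n, Disjoint (f '' F n) (f '' (Q (hist F n) ∩ cur (hist F n)))) →
      (closure (⋃ n, Q (hist F n)) ∩ ⋂ n, F n).Nonempty

/-- A strategy of the first player in which the moves are images under `f` of closed locally compact
sets. -/
structure StratH {X Z : Type} [TopologicalSpace X] [TopologicalSpace Z] (f : X → Z) where
  /-- the states -/
  St : Type
  /-- the initial state -/
  init : St
  /-- the valid states -/
  inv : St → Prop
  /-- the move of the first player is `f '' L σ` -/
  L : St → Set X
  /-- the next state after a move of the second player -/
  next : St → Set Z → St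
  inv_init : inv init
  inv_next : ∀ σ F, inv σ → IsClosed F → Disjoint F (f '' L σ) → inv (next σ F)
  lcs : ∀ σ, inv σ → LCS (L σ)
  win : ∀ (σ : ℕ → St) (F : ℕ → Set Z), σ 0 = init → (∀ n, IsClosed (F n)) →
    (∀ n, F (n + 1) ⊆ F n) → (∀ n, Disjoint (F n) (f '' L (σ n))) →
    (∀ n, σ (n + 1) = next (σ n) (F n)) → ⋂ n, F n = ∅

end Pool.Agent.W3e58c0b
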