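import Pool.Agent.W_3e58c0b_h78.CompCrit

/-!
# Images of locally finite families of compact sets under closed maps (helper78)
-/

set_option autoImplicit false

namespace Pool.Agent.W3e58c0b

open Set Topology

/-- The points which are in the images of infinitely many of the sets `K i`. -/
def InfPts {X Z I : Type} (f : X → Z) (K : I → Set X) : Set Z :=
  {z | {i | z ∈ f '' K i}.Infinite}

theorem hcp_closed_image {X Z J : Type} [TopologicalSpace X] [TopologicalSpace Z]
    {f : X → Z} (hc : IsClosedMap f) (L : J → Set X)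
    (hL : ∀ j, IsClosed (L j)) (hlf : LocallyFinite L) : IsClosed (f '' ⋃ j, L j) :=
  hc _ (hlf.isClosed_iUnion hL)

theorem hcp_finite {X Z I : Type} [TopologicalSpace X] [TopologicalSpace Z]
    [T2Space X] [T2Space Z] {f : X → Z} (hf : Continuous f) (hc : IsClosedMap f)
    (K : I → Set X) (hK : ∀ i, IsCompact (K i)) (hlf : LocallyFinite K) (i : I) :
    (InfPts f K ∩ f '' K i).Finite := by
  classical
  by_contra hinf
  have hinf' : (InfPts f K ∩ f '' K i).Infinite := hinf
  obtain ⟨g, hg1, hg2⟩ := exists_seq_of_forall_finset_exists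
    (fun p : Z × I => p.1 ∈ InfPts f K ∩ f '' K i ∧ p.1 ∈ f '' K p.2)
    (fun p q : Z × I => p.1 ≠ q.1 ∧ p.2 ≠ q.2) (by
      intro s hs
      obtain ⟨w, hw1, hw2⟩ := hinf'.exists_notMem_finset (s.image Prod.fst)
      have hw3 : {i | w ∈ f '' K i}.Infinite := hw1.1
      obtain ⟨i2, hi1, hi2⟩ := hw3.exists_notMem_finset (s.image Prod.snd)
      refine ⟨(w, i2), ⟨hw1, hi1⟩, ?_⟩
      intro p hp
      constructor
      · intro h
        exact hw2 (Finset.mem_image.2 ⟨p, hp, h⟩)
      · intro h
        exact hi2 (Finset.mem_image.2 ⟨p, hp, h⟩))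
  have hz : Function.Injective fun n => (g n).1 := by
    intro m n hmn
    rcases lt_trichotomy m n with h | h | h
    · exact absurd hmn (hg2 m n h).1
    · exact h
    · exact absurd hmn.symm (hg2 n m h).1
  have hidx : Function.Injective fun n => (g n).2 := by
    intro m n hmn
    rcases lt_trichotomy m n with h | h | h
    · exact absurd hmn (hg2 m n h).2
    · exact h
    · exact absurd hmn.symm (hg2 n m h).2
  have hM : ∀ M : Set ℕ, IsClosed ((fun n => (g n).1) '' M) := by
    intro M
    have h1 : (fun n => (g n).1) '' M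
        = f '' ⋃ n : ℕ, {x | n ∈ M ∧ x ∈ K (g n).2 ∩ f ⁻¹' {(g n).1}} := by
      ext w
      constructor
      · rintro ⟨n, hn, rfl⟩
        obtain ⟨x, hx1, hx2⟩ := (hg1 n).2
        exact ⟨x, mem_iUnion.2 ⟨n, hn, hx1, hx2⟩, hx2⟩
      · rintro ⟨x, hx, rfl⟩
        obtain ⟨n, hn, -, hx2⟩ := mem_iUnion.1 hx
        exact ⟨n, hn, (show f x = (g n).1 from hx2).symm⟩
    rw [h1]
    apply hcp_closed_image hc
    · intro n
      by_cases hn : n ∈ M
      · have : {x | n ∈ M ∧ x ∈ K (g n).2 ∩ f ⁻¹' {(g n).1}} = K (g n).2 ∩ f ⁻¹' {(g n).1} := by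
          ext x; simp [hn]
        rw [this]
        exact (hK _).isClosed.inter (isClosed_singleton.preimage hf)
      · have : {x | n ∈ M ∧ x ∈ K (g n).2 ∩ f ⁻¹' {(g n).1}} = ∅ := by
          ext x; simp [hn]
        rw [this]
        exact isClosed_empty
    · apply (hlf.comp_injective hidx).subset
      intro n x hx
      exact hx.2.1
  have hall : ∀ A : Set Z, A ⊆ range (fun n => (g n).1) → IsClosed A := by
    intro A hA
    have : A = (fun n => (g n).1) '' ((fun n => (g n).1) ⁻¹' A) := by
      rw [image_preimage_eq_inter_range, inter_eq_self_of_subset_left hA]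
    rw [this]
    exact hM _
  have hcomp : IsCompact (range fun n => (g n).1) := by
    apply ((hK i).image hf).of_isClosed_subset (hall _ subset_rfl)
    rintro _ ⟨n, rfl⟩
    exact (hg1 n).1.2
  have hdisc : DiscreteTopology (range fun n => (g n).1) := by
    rw [discreteTopology_iff_forall_isClosed]
    intro A
    have h2 : IsClosed ((Subtype.val : (range fun n => (g n).1) → Z) '' A) := by
      apply hall
      rintro _ ⟨a, -, rfl⟩
      exact a.2
    have h3 := h2.preimage (continuous_subtype_val : Continuous
      (Subtype.val : (range fun n => (g n).1) → Z))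
    rwa [preimage_image_eq _ Subtype.val_injective] at h3
  have hfin : (range fun n => (g n).1).Finite := hcomp.finite (isDiscrete_iff_discreteTopology.2 hdisc)
  exact (infinite_range_of_injective hz) hfin

/-- Every subset of `InfPts f K` is closed. Proof. Subfamilies `K' i ⊆ K i` of closed sets have locally
finite union (`LocallyFinite.subset`), so that `⋃ i, f '' K' i` is closed, being the image of a closed
set. First, `D ∩ f '' K i` is finite for every `i`, where `D = InfPts f K`: otherwise there is an
injective sequence `z n` in it, and by recursion one chooses different indices `i n` with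
`z n ∈ f '' K (i n)`; for every set `M` of numbers the set `{z n | n ∈ M}` is the
union of the sets `f '' (K (i n) ∩ f ⁻¹' {z n})`, `n ∈ M`, so it is closed. So the range of `z` is an
infinite closed discrete subset of the compact set `f '' K i`, a contradiction (`IsCompact.finite`).
Now let `D' ⊆ D`; it is the union of the sets `f '' (K i ∩ f ⁻¹' (D' ∩ f '' K i))`, where
`D' ∩ f '' K i` is finite, hence closed. -/
theorem isClosed_of_subset_infPts {X Z I : Type} [TopologicalSpace X] [TopologicalSpace Z]
    [T2Space X] [T2Space Z] {f : X → Z} (hf : Continuous f) (hc : IsClosedMap f)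
    (K : I → Set X) (hK : ∀ i, IsCompact (K i)) (hlf : LocallyFinite K)
    (D' : Set Z) (hD' : D' ⊆ InfPts f K) : IsClosed D' := by
  have h1 : D' = f '' ⋃ i, K i ∩ f ⁻¹' (D' ∩ f '' K i) := by
    ext w
    constructor
    · intro hw
      have h2 : {i | w ∈ f '' K i}.Infinite := hD' hw
      obtain ⟨i, hi⟩ := h2.nonempty
      obtain ⟨x, hx, rfl⟩ := hi
      exact ⟨x, mem_iUnion.2 ⟨i, hx, hw, mem_image_of_mem f hx⟩, rfl⟩
    · rintro ⟨x, hx, rfl⟩
      obtain ⟨i, -, hx2⟩ := mem_iUnion.1 hx
      exact hx2.1
  rw [h1]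
  apply hcp_closed_image hc
  · intro i
    have h3 : (D' ∩ f '' K i).Finite :=
      (hcp_finite hf hc K hK hlf i).subset (inter_subset_inter_left _ hD')
    exact (hK i).isClosed.inter (h3.isClosed.preimage hf)
  · exact hlf.subset fun i => inter_subset_left

/-- Proof: by the previous lemma `D = InfPts f K` is closed and for every `z` the set `D \ {z}` is
closed; by regularity `z` has an open neighbourhood `V` whose closure does not meet `D \ {z}`. -/
theorem LCS_infPts {X Z I : Type} [TopologicalSpace X] [TopologicalSpace Z]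
    [T2Space X] [T3Space Z] {f : X → Z} (hf : Continuous f) (hc : IsClosedMap f)
    (K : I → Set X) (hK : ∀ i, IsCompact (K i)) (hlf : LocallyFinite K) :
    LCS (InfPts f K) := by
  refine ⟨isClosed_of_subset_infPts hf hc K hK hlf _ subset_rfl, ?_⟩
  intro z
  have h1 : IsClosed (InfPts f K \ {z}) :=
    isClosed_of_subset_infPts hf hc K hK hlf _ diff_subset
  obtain ⟨V, hV1, hV2, hV3⟩ := compCrit_nhd h1.isOpen_compl
    (show z ∈ (InfPts f K \ {z})ᶜ from fun h => h.2 rfl)
  refine ⟨V, hV1, hV2, ?_⟩
  have h2 : closure V ∩ InfPts f K ⊆ {z} := by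
    rintro w ⟨hw1, hw2⟩
    by_contra hcon
    exact hV3 hw1 ⟨hw2, hcon⟩
  exact ((finite_singleton z).subset h2).isCompact

/-- Proof: by `LCS_of_locallyFinite` it is enough that the sets `f '' K i ∩ F` (compact, their union is
the given set) form a locally finite family. If `z ∉ F` use the complement of `F`. If `z ∈ F` then
`z ∉ InfPts f K`, so `z` is in `f '' K i` for only finitely many `i`; the union of all the other sets
`f '' K i` is closed (image of a closed set) and does not contain `z`. -/
theorem LCS_image {X Z I : Type} [TopologicalSpace X] [TopologicalSpace Z]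
    [T2Space X] [T3Space Z] {f : X → Z} (hf : Continuous f) (hc : IsClosedMap f)
    (K : I → Set X) (hK : ∀ i, IsCompact (K i)) (hlf : LocallyFinite K)
    (F : Set Z) (hF : IsClosed F) (hFD : Disjoint F (InfPts f K)) :
    LCS (f '' (⋃ i, K i) ∩ F) := by
  have h0 : f '' (⋃ i, K i) ∩ F = ⋃ i, f '' K i ∩ F := by
    rw [image_iUnion, iUnion_inter]
  rw [h0]
  apply LCS_of_locallyFinite
  · intro i
    exact ((hK i).image hf).inter_right hF
  · intro z
    by_cases hz : z ∈ F
    · have h1 : z ∉ InfPts f K := fun h => disjoint_left.1 hFD hz h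
      have h2 : {i | z ∈ f '' K i}.Finite := not_infinite.1 h1
      have h3 : IsClosed (f '' ⋃ i, {x | z ∉ f '' K i ∧ x ∈ K i}) := by
        apply hcp_closed_image hc
        · intro i
          by_cases hi : z ∈ f '' K i
          · have : {x | z ∉ f '' K i ∧ x ∈ K i} = ∅ := by
              ext x; simp only [mem_setOf_eq, mem_empty_iff_false, iff_false]
              exact fun h => h.1 hi
            rw [this]
            exact isClosed_empty
          · have : {x | z ∉ f '' K i ∧ x ∈ K i} = K i := by
              ext x; exact ⟨fun h => h.2, fun h => ⟨hi, h⟩⟩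
            rw [this]
            exact (hK i).isClosed
        · exact hlf.subset fun i x hx => hx.2
      refine ⟨(f '' ⋃ i, {x | z ∉ f '' K i ∧ x ∈ K i})ᶜ, h3.isOpen_compl.mem_nhds ?_, ?_⟩
      · rintro ⟨x, hx, hxz⟩
        obtain ⟨i, hi1, hi2⟩ := mem_iUnion.1 hx
        exact hi1 ⟨x, hi2, hxz⟩
      · apply h2.subset
        rintro i ⟨w, ⟨hw1, -⟩, hw2⟩
        by_contra hcon
        obtain ⟨x, hx, rfl⟩ := hw1
        exact hw2 ⟨x, mem_iUnion.2 ⟨i, hcon, hx⟩, rfl⟩
    · refine ⟨Fᶜ, hF.isOpen_compl.mem_nhds hz, ?_⟩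
      convert finite_empty (α := I)
      ext i
      simp only [mem_setOf_eq, mem_empty_iff_false, iff_false]
      rintro ⟨w, ⟨-, hw1⟩, hw2⟩
      exact hw2 hw1

end Pool.Agent.W3e58c0b
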