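import Pool.Agent.W_3e58c0b_h78.Basic2
import Pool.Agent.W_3e58c0b_h78.HCP

/-!
# From strategies with images of locally compact sets to strategies (helper78)
-/

set_option autoImplicit false

namespace Pool.Agent.W3e58c0b

open Set Topology

/-- This is a small change of `strat_of_closedMap` in `ClosedMap.lean` (adapt its proof). `Z` is T4
(`t4_of_closedMap` in `W_3e58c0_h78/Fin1.lean`). For every valid state `σ` of `S` let `E σ a` (`a : X`) be
a locally finite closed cover of `X` with `K σ a = E σ a ∩ L σ` compact (`exists_cover_of_LCS`), and let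
`D σ = InfPts f (K σ)`. The states of the new strategy are the pairs `(σ, o)`, `o : Option (Set Z)`. The
pair `(σ, none)` is valid if `σ` is valid; its move is `D σ`, and the next state after a move `F` is
`(σ, some F)`. The pair `(σ, some F')` is valid if `σ` is valid, `F'` is closed and disjoint from `D σ`;
its move is `f '' L σ ∩ F'` and the next state after a move `F` is `(next σ (F ∩ F'), none)`; note that
`F ∩ F'` is disjoint from `f '' L σ` if `F` is disjoint from `f '' L σ ∩ F'`. The moves are
closed and locally compact by `LCS_infPts` and `LCS_image`. For `win` let states `σ n` and closed sets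
`F n` be given. By induction `σ (2 n) = (x n, none)` and `σ (2 n + 1) = (x n, some (F (2 n)))` with
`x (n + 1) = next (x n) (F (2 n + 1) ∩ F (2 n))`, so that `win` of `S` applies to the states `x n` and the
closed sets `F (2 n + 1) ∩ F (2 n)`. -/
theorem strat_of_stratH {X Z : Type} [TopologicalSpace X] [TopologicalSpace Z]
    [ParacompactSpace X] [T2Space X] {f : X → Z} (S : StratH f) (hf : Continuous f)
    (hc : IsClosedMap f) (hs : Function.Surjective f) : Nonempty (Strat Z) := by
  have _hZ : T4Space Z := Pool.Agent.W3e58c0h78.t4_of_closedMap hf hc hs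
  have hex : ∀ σ : S.St, ∃ E : X → Set X, S.inv σ → (LocallyFinite E ∧ (⋃ a, E a = univ) ∧
      ∀ a, IsCompact (E a ∩ S.L σ)) := by
    intro σ
    by_cases h : S.inv σ
    · obtain ⟨U, E, h1, h2, h3, h4, h5, h6⟩ := exists_cover_of_LCS (S.lcs σ h)
      exact ⟨E, fun _ => ⟨h2.subset h4, h5, h6⟩⟩
    · exact ⟨fun _ => ∅, fun h' => absurd h' h⟩
  choose E hE using hex
  let K : S.St → X → Set X := fun σ a => E σ a ∩ S.L σ
  have hK : ∀ σ, S.inv σ → (∀ a, IsCompact (K σ a)) ∧ LocallyFinite (K σ) ∧
      ⋃ a, K σ a = S.L σ := by
    intro σ h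
    obtain ⟨h1, h2, h3⟩ := hE σ h
    refine ⟨h3, h1.subset fun a => inter_subset_left, ?_⟩
    rw [← iUnion_inter, h2, univ_inter]
  let D : S.St → Set Z := fun σ => InfPts f (K σ)
  refine ⟨{ St := S.St × Option (Set Z)
            init := (S.init, none)
            inv := fun p => match p.2 with
              | none => S.inv p.1
              | some F' => S.inv p.1 ∧ IsClosed F' ∧ Disjoint F' (D p.1)
            L := fun p => match p.2 with
              | none => D p.1
              | some F' => f '' S.L p.1 ∩ F'
            next := fun p F => match p.2 with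
              | none => (p.1, some F)
              | some F' => (S.next p.1 (F ∩ F'), none)
            inv_init := S.inv_init
            inv_next := ?_
            lcs := ?_
            win := ?_ }⟩
  · rintro ⟨σ, _ | F'⟩ F h hF hd
    · exact ⟨h, hF, hd⟩
    · obtain ⟨h1, h2, h3⟩ := h
      refine S.inv_next σ (F ∩ F') h1 (hF.inter h2) (disjoint_left.2 fun z hz hz' => ?_)
      exact disjoint_left.1 hd hz.1 ⟨hz', hz.2⟩
  · rintro ⟨σ, _ | F'⟩ h
    · exact LCS_infPts hf hc (K σ) (hK σ h).1 (hK σ h).2.1
    · obtain ⟨h1, h2, h3⟩ := h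
      have h4 := LCS_image hf hc (K σ) (hK σ h1).1 (hK σ h1).2.1 F' h2 h3
      rw [(hK σ h1).2.2] at h4
      exact h4
  · intro σ F h0 hF hdec hdis hnext
    have hstep : ∀ n x, σ n = (x, none) → σ (n + 1) = (x, some (F n)) ∧
        σ (n + 2) = (S.next x (F (n + 1) ∩ F n), none) := by
      intro n x hx
      have h1 : σ (n + 1) = (x, some (F n)) := by
        rw [hnext n, hx]
      refine ⟨h1, ?_⟩
      have h2 := hnext (n + 1)
      rw [h1] at h2
      exact h2
    have heven : ∀ n, σ (2 * n) = ((σ (2 * n)).1, none) := by
      intro n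
      induction n with
      | zero => rw [Nat.mul_zero, h0]
      | succ n ih =>
        have h1 := (hstep (2 * n) _ ih).2
        have e : 2 * (n + 1) = 2 * n + 2 := by ring
        rw [e, h1]
    have hwin := S.win (fun n => (σ (2 * n)).1) (fun n => F (2 * n + 1) ∩ F (2 * n))
      (by
        change (σ (2 * 0)).1 = S.init
        rw [Nat.mul_zero, h0])
      (fun n => (hF _).inter (hF _))
      (fun n z hz => by
        have e : 2 * (n + 1) = 2 * n + 2 := by ring
        have h1 : z ∈ F (2 * n + 2) := by
          rw [← e]
          exact hz.2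
        exact ⟨hdec _ h1, hdec _ (hdec _ h1)⟩)
      (fun n => by
        have h1 := hdis (2 * n + 1)
        rw [(hstep (2 * n) _ (heven n)).1] at h1
        refine disjoint_left.2 fun z hz hz' => ?_
        exact disjoint_left.1 h1 hz.1 ⟨hz', hz.2⟩)
      (fun n => by
        have h1 := (hstep (2 * n) _ (heven n)).2
        have e : 2 * (n + 1) = 2 * n + 2 := by ring
        change (σ (2 * (n + 1))).1 = _
        rw [e, h1])
    rw [eq_empty_iff_forall_notMem]
    intro z hz
    have h1 : z ∈ ⋂ n, (F (2 * n + 1) ∩ F (2 * n)) :=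
      mem_iInter.2 fun n => ⟨mem_iInter.1 hz _, mem_iInter.1 hz _⟩
    rw [hwin] at h1
    exact h1

end Pool.Agent.W3e58c0b
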