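import Mathlib

/-!
# Closed maps with paracompact domain are compact-covering (helper78)
-/

set_option autoImplicit false

namespace Pool.Agent.W3e58c0b

open Set Topology

theorem CompCover_frontier_compact {X Z : Type} [TopologicalSpace X] [TopologicalSpace Z]
    [ParacompactSpace X] [T2Space X] [T2Space Z] [CompactSpace Z] {f : X → Z} (hf : Continuous f)
    (hc : IsClosedMap f) (z : Z) : IsCompact (frontier (f ⁻¹' {z})) := by
  classical
  rw [isCompact_iff_finite_subcover]
  intro I U hUo hU
  by_contra hcon
  push Not at hcon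
  have hclz : IsClosed (f ⁻¹' {z}) := isClosed_singleton.preimage hf
  have hBz : frontier (f ⁻¹' {z}) ⊆ f ⁻¹' {z} := hclz.frontier_subset
  -- the locally finite refinement
  obtain ⟨W, hWo, hWc, hWl, hWU⟩ := precise_refinement
    (fun o : Option I => o.elim (frontier (f ⁻¹' {z}))ᶜ U) (by
      rintro (_ | i)
      · exact isClosed_frontier.isOpen_compl
      · exact hUo i) (by
      rw [eq_univ_iff_forall]
      intro x
      by_cases hx : x ∈ frontier (f ⁻¹' {z})
      · obtain ⟨i, hi⟩ := mem_iUnion.1 (hU hx)
        exact mem_iUnion.2 ⟨some i, hi⟩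
      · exact mem_iUnion.2 ⟨none, hx⟩)
  have hWcov : ∀ x ∈ frontier (f ⁻¹' {z}), ∃ i, x ∈ W (some i) := by
    intro x hx
    have : x ∈ ⋃ o, W o := by rw [hWc]; trivial
    obtain ⟨o, ho⟩ := mem_iUnion.1 this
    cases o with
    | none => exact absurd hx (hWU none ho)
    | some i => exact ⟨i, ho⟩
  have hinf : ∀ t : Finset I, ∃ i, i ∉ t ∧ (W (some i) ∩ frontier (f ⁻¹' {z})).Nonempty := by
    intro t
    obtain ⟨x, hx, hxt⟩ := not_subset.1 (hcon t)
    obtain ⟨i, hi⟩ := hWcov x hx
    refine ⟨i, fun hit => hxt (mem_iUnion₂.2 ⟨i, hit, hWU (some i) hi⟩), x, hi, hx⟩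
  obtain ⟨g, hg1, hg2⟩ := exists_seq_of_forall_finset_exists
    (fun p : I × X => p.2 ∈ W (some p.1) ∧ f p.2 ≠ z)
    (fun p q : I × X => p.1 ≠ q.1 ∧ f p.2 ≠ f q.2) (by
      intro s hs
      obtain ⟨i, hi, x, hx1, hx2⟩ := hinf (s.image Prod.fst)
      have hN : W (some i) ∩ (f ⁻¹' ((s.image fun p => f p.2 : Finset Z) : Set Z))ᶜ ∈ 𝓝 x := by
        refine Filter.inter_mem ((hWo _).mem_nhds hx1) (IsOpen.mem_nhds ?_ ?_)
        · exact ((Finset.finite_toSet _).isClosed.preimage hf).isOpen_compl
        · intro hmem
          obtain ⟨p, hp1, hp2⟩ := Finset.mem_image.1 (Finset.mem_coe.1 hmem)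
          exact (hs p hp1).2 (hp2.trans (hBz hx2))
      have hxcl : x ∈ closure (f ⁻¹' {z})ᶜ := by
        rw [frontier_eq_closure_inter_closure] at hx2
        exact hx2.2
      obtain ⟨y, ⟨hy1, hy2⟩, hy3⟩ := mem_closure_iff_nhds.1 hxcl _ hN
      refine ⟨(i, y), ⟨hy1, hy3⟩, fun p hp => ⟨?_, ?_⟩⟩
      · rintro rfl
        exact hi (Finset.mem_image_of_mem _ hp)
      · intro he
        apply hy2
        show f y ∈ ((s.image fun p => f p.2 : Finset Z) : Set Z)
        rw [Finset.mem_coe, Finset.mem_image]
        exact ⟨p, hp, he⟩)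
  have hne1 : ∀ m n, m ≠ n → (g m).1 ≠ (g n).1 := by
    intro m n hmn
    rcases lt_or_gt_of_ne hmn with h | h
    · exact (hg2 m n h).1
    · exact (hg2 n m h).1.symm
  have hne2 : ∀ m n, m ≠ n → f (g m).2 ≠ f (g n).2 := by
    intro m n hmn
    rcases lt_or_gt_of_ne hmn with h | h
    · exact (hg2 m n h).2
    · exact (hg2 n m h).2.symm
  have hlf : LocallyFinite fun n => ({(g n).2} : Set X) := by
    have hinj : Function.Injective fun n => (some (g n).1 : Option I) := by
      intro m n h
      by_contra hmn
      exact hne1 m n hmn (Option.some.inj h)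
    refine (hWl.comp_injective hinj).subset fun n => ?_
    rw [singleton_subset_iff]
    exact (hg1 n).1
  have hclosed : ∀ S : Set ℕ, IsClosed ((fun n => f (g n).2) '' S) := by
    intro S
    have h1 : IsClosed (⋃ n : S, ({(g n).2} : Set X)) :=
      (hlf.comp_injective Subtype.val_injective).isClosed_iUnion fun n => isClosed_singleton
    have h2 := hc _ h1
    convert h2 using 1
    ext y
    simp only [mem_image, mem_iUnion, mem_singleton_iff]
    constructor
    · rintro ⟨n, hn, rfl⟩
      exact ⟨_, ⟨⟨n, hn⟩, rfl⟩, rfl⟩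
    · rintro ⟨x, ⟨n, rfl⟩, rfl⟩
      exact ⟨n, n.2, rfl⟩
  have hinfT : (range fun n => f (g n).2).Infinite := by
    apply infinite_range_of_injective
    intro m n h
    by_contra hmn
    exact hne2 m n hmn h
  obtain ⟨y, -, hy⟩ := hinfT.exists_accPt_of_subset_isCompact isCompact_univ (subset_univ _)
  rw [accPt_principal_iff_clusterPt, ← mem_closure_iff_clusterPt] at hy
  have hset : (range fun n => f (g n).2) \ {y} = (fun n => f (g n).2) '' {n | f (g n).2 ≠ y} := by
    ext w
    constructor
    · rintro ⟨⟨n, rfl⟩, hw⟩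
      exact ⟨n, hw, rfl⟩
    · rintro ⟨n, hn, rfl⟩
      exact ⟨⟨n, rfl⟩, hn⟩
  rw [hset, (hclosed _).closure_eq, ← hset] at hy
  exact hy.2 rfl

theorem CompCover_core {X Z : Type} [TopologicalSpace X] [TopologicalSpace Z]
    [ParacompactSpace X] [T2Space X] [T2Space Z] [CompactSpace Z] {f : X → Z} (hf : Continuous f)
    (hc : IsClosedMap f) (hs : Function.Surjective f) :
    ∃ K : Set X, IsCompact K ∧ f '' K = univ := by
  classical
  have hS : ∀ z, ∃ S : Set X, IsCompact S ∧ S.Nonempty ∧ S ⊆ f ⁻¹' {z} ∧
      IsOpen (f ⁻¹' {z} \ S) := by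
    intro z
    have hclz : IsClosed (f ⁻¹' {z}) := isClosed_singleton.preimage hf
    rcases (frontier (f ⁻¹' {z})).eq_empty_or_nonempty with h | h
    · obtain ⟨x, hx⟩ := hs z
      refine ⟨{x}, isCompact_singleton, singleton_nonempty x, ?_, ?_⟩
      · rw [singleton_subset_iff]
        exact hx
      · exact (isClopen_iff_frontier_eq_empty.2 h).isOpen.sdiff isClosed_singleton
    · refine ⟨_, CompCover_frontier_compact hf hc z, h, hclz.frontier_subset, ?_⟩
      have h1 : f ⁻¹' {z} \ frontier (f ⁻¹' {z}) = interior (f ⁻¹' {z}) := by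
        rw [hclz.frontier_eq]
        ext x
        constructor
        · rintro ⟨hx1, hx2⟩
          by_contra hx3
          exact hx2 ⟨hx1, hx3⟩
        · intro hx
          exact ⟨interior_subset hx, fun h => h.2 hx⟩
      rw [h1]
      exact isOpen_interior
  choose S hS1 hS2 hS3 hS4 using hS
  let K : Set X := {x | x ∈ S (f x)}
  have hKc : Kᶜ = ⋃ z, (f ⁻¹' {z} \ S z) := by
    ext x
    simp only [mem_compl_iff, mem_iUnion]
    constructor
    · intro hx
      exact ⟨f x, rfl, hx⟩
    · rintro ⟨z, hz1, hz2⟩ hx
      have : f x = z := hz1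
      subst this
      exact hz2 hx
  have hKcl : IsClosed K := by
    rw [← isOpen_compl_iff, hKc]
    exact isOpen_iUnion hS4
  have hprop : IsProperMap (fun x : K => f x) := by
    rw [isProperMap_iff_isClosedMap_and_compact_fibers]
    refine ⟨hf.comp continuous_subtype_val, hc.comp hKcl.isClosedMap_subtype_val, fun z => ?_⟩
    rw [Topology.IsEmbedding.subtypeVal.isCompact_iff]
    convert hS1 z using 1
    ext x
    simp only [mem_image, mem_preimage, mem_singleton_iff, Subtype.exists, exists_and_right,
      exists_eq_right]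
    constructor
    · rintro ⟨hx, hz⟩
      subst hz
      exact hx
    · intro hx
      have hz : f x = z := hS3 z hx
      refine ⟨?_, hz⟩
      show x ∈ S (f x)
      rw [hz]
      exact hx
  have hcomp : IsCompact (univ : Set K) := by
    have := hprop.isCompact_preimage isCompact_univ
    rwa [preimage_univ] at this
  refine ⟨K, ?_, ?_⟩
  · rw [← Subtype.range_coe (s := K), ← image_univ]
    exact hcomp.image continuous_subtype_val
  · rw [eq_univ_iff_forall]
    intro z
    obtain ⟨x, hx⟩ := hS2 z
    have hz : f x = z := hS3 z hx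
    refine ⟨x, ?_, hz⟩
    show x ∈ S (f x)
    rw [hz]
    exact hx

/-- Michael's theorem on compact-covering maps. Proof. Replace `X` by the closed set `A = f ⁻¹' C`
(`C` is closed, `Z` is Hausdorff), a paracompact Hausdorff space, so that we have a closed map `f` from
`A` onto the compact space `C` (restrictions of closed maps to preimages are closed:
`IsClosedMap.restrictPreimage`). For `z` let `B z` be the frontier of `f ⁻¹' {z}` in `A`. (1) `B z` is
compact. It is closed in the paracompact space `A`, so that it is enough that it contains no infinite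
closed discrete subset; or directly: if it is not compact there is an open cover of `A` without
finite subfamily covering `B z`, hence (paracompactness) a locally finite open cover `W a` of `A` such
that no finite subfamily covers `B z`, and one chooses by recursion different indices `a n` and points
`x n ∈ B z ∩ W (a n)`. Choose by recursion `x' n ∈ W (a n)` with `f (x' n) ≠ z` and
`f (x' n) ≠ f (x' k)` for `k < n` (possible: `W (a n) ∩ f ⁻¹' {f (x' k) | k < n}ᶜ` is a neighbourhood
of `x n`, and `x n` is in the frontier of `f ⁻¹' {z}`). The sets `{x' n}` form a locally finite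
family of closed sets, so that all subsets of `{f (x' n) | n}` are closed, being images of closed sets;
this is an infinite closed discrete subset of the compact space `C`, a contradiction
(`IsCompact.finite`). (2) Let `A'` be the union of all the sets `B z` and of one point `p z` of
`f ⁻¹' {z}` for each `z` with `B z = ∅` (then `f ⁻¹' {z}` is open). `A'` is closed: its complement is the
union over all `z` of the open sets `interior (f ⁻¹' {z})` (if `B z ≠ ∅`) and
`f ⁻¹' {z} \ {p z}` (if `B z = ∅`). The restriction of `f` to `A'` is a closed map onto `C` with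
compact fibres, so that it is a proper map (`isProperMap_iff_isClosedMap_and_compact_fibers`) and
`A'` is compact, with image `C`. -/
theorem exists_isCompact_image_eq {X Z : Type} [TopologicalSpace X] [TopologicalSpace Z]
    [ParacompactSpace X] [T2Space X] [T2Space Z] {f : X → Z} (hf : Continuous f)
    (hc : IsClosedMap f) (hs : Function.Surjective f) (C : Set Z) (hC : IsCompact C) :
    ∃ K : Set X, IsCompact K ∧ f '' K = C := by
  have hclA : IsClosed (f ⁻¹' C) := hC.isClosed.preimage hf
  have i1 : ParacompactSpace (f ⁻¹' C) := hclA.isClosedEmbedding_subtypeVal.paracompactSpace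
  have i2 : CompactSpace C := isCompact_iff_compactSpace.1 hC
  obtain ⟨K, hK1, hK2⟩ := CompCover_core (f := C.restrictPreimage f) (hf.restrictPreimage)
    (hc.restrictPreimage C) (by
      rintro ⟨z, hz⟩
      obtain ⟨x, rfl⟩ := hs z
      exact ⟨⟨x, hz⟩, rfl⟩)
  refine ⟨Subtype.val '' K, hK1.image continuous_subtype_val, ?_⟩
  ext z
  constructor
  · rintro ⟨_, ⟨x, -, rfl⟩, rfl⟩
    exact x.2
  · intro hz
    have : (⟨z, hz⟩ : C) ∈ C.restrictPreimage f '' K := by rw [hK2]; trivial
    obtain ⟨x, hx1, hx2⟩ := this
    exact ⟨x, ⟨x, hx1, rfl⟩, congrArg Subtype.val hx2⟩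

end Pool.Agent.W3e58c0b
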