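import Pool.Agent.W_3e58c0b_h78.Basic

/-!
# A compactness criterion and refinements (helper78)
-/

set_option autoImplicit false

namespace Pool.Agent.W3e58c0b

open Set Topology

theorem compCrit_nhd {X : Type} [TopologicalSpace X] [RegularSpace X] {x : X} {V : Set X}
    (hV : IsOpen V) (hx : x ∈ V) : ∃ O : Set X, IsOpen O ∧ x ∈ O ∧ closure O ⊆ V := by
  obtain ⟨t, ht, htc, htV⟩ := exists_mem_nhds_isClosed_subset (hV.mem_nhds hx)
  refine ⟨interior t, isOpen_interior, mem_interior_iff_mem_nhds.2 ht, ?_⟩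
  exact (closure_minimal interior_subset htc).trans htV

/-- A closed set `K` in a paracompact Hausdorff space which is covered by the closures of finitely
many members of every locally finite open cover (indexed by the points) is compact. Proof. Let an open
cover of `K` be given. For `x ∈ K` let `O x` be an open neighbourhood of `x` whose closure is contained
in a member of the cover, for `x ∉ K` let `O x` be an open neighbourhood of `x` whose closure does not
meet `K`. By `precise_refinement` there is a locally finite open cover `U` with `U x ⊆ O x`. So `K` is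
covered by finitely many sets `closure (U x)`, `x ∈ F`; those with `x ∉ K` do not meet `K`, the
others are contained in members of the given cover. -/
theorem isCompact_of_cov {X : Type} [TopologicalSpace X] [ParacompactSpace X] [T2Space X]
    (K : Set X) (hK : IsClosed K)
    (h : ∀ E : Cov X, ∃ F : Finset X, K ⊆ ⋃ a ∈ F, closure (E.U a)) : IsCompact K := by
  classical
  apply isCompact_of_finite_subcover
  intro ι V hV hKV
  rcases K.eq_empty_or_nonempty with hKe | ⟨x₀, hx₀⟩
  · exact ⟨∅, by rw [hKe]; exact empty_subset _⟩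
  haveI : Nonempty ι := ⟨(mem_iUnion.1 (hKV hx₀)).choose⟩
  have hO : ∀ x : X, ∃ O : Set X, IsOpen O ∧ x ∈ O ∧
      ((x ∈ K → ∃ i, closure O ⊆ V i) ∧ (x ∉ K → Disjoint (closure O) K)) := by
    intro x
    by_cases hx : x ∈ K
    · obtain ⟨i, hi⟩ := mem_iUnion.1 (hKV hx)
      obtain ⟨O, h1, h2, h3⟩ := compCrit_nhd (hV i) hi
      exact ⟨O, h1, h2, fun _ => ⟨i, h3⟩, fun h => absurd hx h⟩
    · obtain ⟨O, h1, h2, h3⟩ := compCrit_nhd hK.isOpen_compl (mem_compl hx)
      exact ⟨O, h1, h2, fun h => absurd h hx, fun _ => disjoint_left.2 fun y hy hyK => h3 hy hyK⟩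
  choose O hO1 hO2 hO3 using hO
  obtain ⟨U, hU1, hU2, hU3, hU4⟩ := precise_refinement O hO1
    (eq_univ_of_forall fun x => mem_iUnion.2 ⟨x, hO2 x⟩)
  obtain ⟨F, hF⟩ := h ⟨U, hU1, hU3, fun x => mem_iUnion.1 (hU2 ▸ mem_univ x)⟩
  have hF' : K ⊆ ⋃ a ∈ F, closure (U a) := hF
  -- the index of the member of the cover
  have hidx : ∀ a ∈ F.filter (fun a => a ∈ K), ∃ i, closure (U a) ⊆ V i := by
    intro a ha
    obtain ⟨i, hi⟩ := (hO3 a).1 (Finset.mem_filter.1 ha).2
    exact ⟨i, (closure_mono (hU4 a)).trans hi⟩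
  choose! g hg using hidx
  refine ⟨(F.filter (fun a => a ∈ K)).image g, ?_⟩
  intro x hx
  obtain ⟨a, haF, hxa⟩ := mem_iUnion₂.1 (hF' hx)
  have haK : a ∈ K := by
    by_contra hcon
    exact disjoint_left.1 ((hO3 a).2 hcon) (closure_mono (hU4 a) hxa) hx
  have hmem : a ∈ F.filter (fun a => a ∈ K) := Finset.mem_filter.2 ⟨haF, haK⟩
  exact mem_iUnion₂.2 ⟨g a, Finset.mem_image_of_mem g hmem, hg a hmem hxa⟩

/-- Precise closed refinements of open covers of a closed set. Proof: put `O' x = O x` for `x ∈ R` and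
`O' x = Rᶜ` otherwise; this is an open cover (index type `X`); take a precise locally finite open
refinement (`precise_refinement`), shrink it to a closed cover (`exists_iUnion_eq_closed_subset`; a
subfamily of a locally finite family is locally finite, `LocallyFinite.subset`) and intersect
with `R`. -/
theorem closed_refinement {X : Type} [TopologicalSpace X] [ParacompactSpace X] [T2Space X]
    (R : Set X) (hR : IsClosed R) (O : X → Set X) (hO : ∀ x ∈ R, IsOpen (O x) ∧ x ∈ O x) :
    ∃ E : X → Set X, (∀ a, IsClosed (E a)) ∧ LocallyFinite E ∧ (∀ a, E a ⊆ R) ∧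
      (∀ a, (E a).Nonempty → a ∈ R) ∧ (∀ a, E a ⊆ O a) ∧ R ⊆ ⋃ a, E a := by
  classical
  set O' : X → Set X := fun x => if x ∈ R then O x else Rᶜ with hO'
  have h1 : ∀ x, IsOpen (O' x) := by
    intro x
    by_cases hx : x ∈ R
    · simp only [hO', if_pos hx]; exact (hO x hx).1
    · simp only [hO', if_neg hx]; exact hR.isOpen_compl
  have h2 : ⋃ x, O' x = univ := by
    apply eq_univ_of_forall
    intro x
    refine mem_iUnion.2 ⟨x, ?_⟩
    by_cases hx : x ∈ R
    · simp only [hO', if_pos hx]; exact (hO x hx).2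
    · simp only [hO', if_neg hx]; exact hx
  obtain ⟨U, hU1, hU2, hU3, hU4⟩ := precise_refinement O' h1 h2
  obtain ⟨v, hv1, hv2, hv3⟩ := exists_iUnion_eq_closed_subset hU1 hU3.point_finite hU2
  have key : ∀ a, (v a ∩ R).Nonempty → a ∈ R := by
    rintro a ⟨x, hx1, hx2⟩
    by_contra hcon
    have h3 : x ∈ O' a := hU4 a (hv3 a hx1)
    simp only [hO', if_neg hcon] at h3
    exact h3 hx2
  refine ⟨fun a => v a ∩ R, fun a => (hv2 a).inter hR, ?_, fun a => inter_subset_right, key,
    ?_, ?_⟩
  · exact hU3.subset fun a => inter_subset_left.trans (hv3 a)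
  · rintro a x ⟨hx1, hx2⟩
    have haR : a ∈ R := key a ⟨x, hx1, hx2⟩
    have h3 : x ∈ O' a := hU4 a (hv3 a hx1)
    simpa only [hO', if_pos haR] using h3
  · intro x hx
    obtain ⟨a, ha⟩ := mem_iUnion.1 (hv1 ▸ mem_univ x : x ∈ iUnion v)
    exact mem_iUnion.2 ⟨a, ha, hx⟩

/-- For a closed locally compact set `L` in a paracompact Hausdorff space there are a locally finite
open cover `U` and a closed cover `E` with `E a ⊆ U a` and `E a ∩ L` compact. Proof: choose `V x` as in
the definition of `LCS`, a precise locally finite open refinement `U` of `V` and a closed shrinking `E`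
of `U`; `E a ∩ L` is a closed subset of `closure (V a) ∩ L`. -/
theorem exists_cover_of_LCS {X : Type} [TopologicalSpace X] [ParacompactSpace X] [T2Space X]
    {L : Set X} (hL : LCS L) :
    ∃ (U E : X → Set X), (∀ a, IsOpen (U a)) ∧ LocallyFinite U ∧ (∀ a, IsClosed (E a)) ∧
      (∀ a, E a ⊆ U a) ∧ (⋃ a, E a = univ) ∧ ∀ a, IsCompact (E a ∩ L) := by
  choose V hV1 hV2 hV3 using hL.2
  obtain ⟨U, hU1, hU2, hU3, hU4⟩ := precise_refinement V hV1
    (eq_univ_of_forall fun x => mem_iUnion.2 ⟨x, hV2 x⟩)
  obtain ⟨v, hv1, hv2, hv3⟩ := exists_iUnion_eq_closed_subset hU1 hU3.point_finite hU2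
  refine ⟨U, v, hU1, hU3, hv2, hv3, hv1, ?_⟩
  intro a
  apply (hV3 a).of_isClosed_subset ((hv2 a).inter hL.1)
  exact inter_subset_inter_left L (((hv3 a).trans (hU4 a)).trans subset_closure)

/-- A locally finite union of compact sets is closed and locally compact. Proof: it is closed by
`LocallyFinite.isClosed_iUnion`; for `x` there is an open neighbourhood meeting only finitely many of
the sets, and by regularity an open neighbourhood `V` whose closure is contained in it;
`closure V ∩ ⋃ i, K i` is the union of finitely many compact sets `closure V ∩ K i`. -/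
theorem LCS_of_locallyFinite {X : Type} [TopologicalSpace X] [T3Space X]
    {I : Type} (K : I → Set X) (hK : ∀ i, IsCompact (K i)) (hlf : LocallyFinite K) :
    LCS (⋃ i, K i) := by
  refine ⟨hlf.isClosed_iUnion fun i => (hK i).isClosed, ?_⟩
  intro x
  obtain ⟨t, ht, hfin⟩ := hlf x
  obtain ⟨V, h1, h2, h3⟩ := compCrit_nhd isOpen_interior (mem_interior_iff_mem_nhds.2 ht)
  refine ⟨V, h1, h2, ?_⟩
  have heq : closure V ∩ ⋃ i, K i = ⋃ i ∈ {i | (K i ∩ t).Nonempty}, closure V ∩ K i := by
    ext y
    simp only [mem_inter_iff, mem_iUnion]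
    constructor
    · rintro ⟨hy, i, hi⟩
      exact ⟨i, ⟨y, hi, interior_subset (h3 hy)⟩, hy, hi⟩
    · rintro ⟨i, -, hy, hi⟩
      exact ⟨hy, i, hi⟩
  rw [heq]
  exact hfin.isCompact_biUnion fun i _ => (hK i).inter_left isClosed_closure

end Pool.Agent.W3e58c0b
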