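import Mathlib

/-!
# Michael's theorem: closed images of paracompact spaces are paracompact (helper78)
-/

set_option autoImplicit false

namespace Pool.Agent.W3e58c0b

open Set Topology

/-- Every open cover of `Z` has a precise closure preserving closed refinement. Proof. The sets
`f ⁻¹' U a` form an open cover of `X`; by paracompactness (`precise_refinement`) and the shrinking
lemma (`exists_iUnion_eq_closed_subset`) there is a locally finite closed cover `D a` of `X` with
`D a ⊆ f ⁻¹' U a`. Put `C a = f '' D a`. For every set `J` of indices `⋃ a ∈ J, C a` is the image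
of the closed set `⋃ a ∈ J, D a`. -/
theorem closurePreserving_refinement {X Z : Type} [TopologicalSpace X] [TopologicalSpace Z]
    [ParacompactSpace X] [T2Space X] {f : X → Z} (hf : Continuous f) (hc : IsClosedMap f)
    (hs : Function.Surjective f) {I : Type} (U : I → Set Z) (hU : ∀ a, IsOpen (U a))
    (hcov : ⋃ a, U a = univ) :
    ∃ C : I → Set Z, (∀ a, C a ⊆ U a) ∧ (⋃ a, C a = univ) ∧
      ∀ J : Set I, IsClosed (⋃ a ∈ J, C a) := by
  have hcov' : ⋃ a, f ⁻¹' U a = univ := by
    rw [← preimage_iUnion, hcov, preimage_univ]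
  obtain ⟨v, hvo, hvc, hvl, hvs⟩ := precise_refinement (fun a => f ⁻¹' U a)
    (fun a => (hU a).preimage hf) hcov'
  obtain ⟨D, hDc, hDcl, hDs⟩ := exists_iUnion_eq_closed_subset hvo hvl.point_finite hvc
  have hDl : LocallyFinite D := hvl.subset hDs
  refine ⟨fun a => f '' D a, fun a => ?_, ?_, fun J => ?_⟩
  · rintro _ ⟨x, hx, rfl⟩
    exact hvs a (hDs a hx)
  · rw [← image_iUnion, hDc, image_univ, hs.range_eq]
  · have h1 : IsClosed (⋃ a : J, D a) :=
      (hDl.comp_injective Subtype.val_injective).isClosed_iUnion fun a => hDcl a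
    have h2 : (⋃ a ∈ J, f '' D a) = f '' (⋃ a : J, D a) := by
      rw [image_iUnion, iUnion_subtype]
    rw [h2]
    exact hc _ h1

theorem Michael_normal {X Z : Type} [TopologicalSpace X] [TopologicalSpace Z]
    [NormalSpace X] {f : X → Z} (hf : Continuous f) (hc : IsClosedMap f)
    (hs : Function.Surjective f) : NormalSpace Z := by
  refine ⟨fun A B hA hB hAB => ?_⟩
  obtain ⟨U, V, hU, hV, hAU, hBV, hUV⟩ :=
    normal_separation (hA.preimage hf) (hB.preimage hf) (hAB.preimage f)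
  refine ⟨(f '' Uᶜ)ᶜ, (f '' Vᶜ)ᶜ, (hc _ hU.isClosed_compl).isOpen_compl,
    (hc _ hV.isClosed_compl).isOpen_compl, ?_, ?_, ?_⟩
  · rintro z hz ⟨x, hx, rfl⟩
    exact hx (hAU hz)
  · rintro z hz ⟨x, hx, rfl⟩
    exact hx (hBV hz)
  · rw [disjoint_left]
    intro z hz1 hz2
    obtain ⟨x, rfl⟩ := hs z
    have hxU : x ∈ U := by
      by_contra h
      exact hz1 ⟨x, h, rfl⟩
    have hxV : x ∈ V := by
      by_contra h
      exact hz2 ⟨x, h, rfl⟩
    exact disjoint_left.1 hUV hxU hxV

/-- Michael's theorem. Proof. `Z` is T4 (`t4_of_closedMap` in `W_3e58c0_h78/Fin1.lean`, or prove it).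
Let an open cover `U a` of `Z` be given, with an index type `I` which we well-order. Construct by
recursion on `i : ℕ` closure preserving closed covers `C i` (all unions of subfamilies are closed)
with `C i a ⊆ U a` and `C (i + 1) a ∩ C i b = ∅` for `b < a`: the sets
`U a \ ⋃ b < a, C i b` are open and cover `Z` (take the least `a` with `z ∈ C i a`), and
`closurePreserving_refinement` applies to them. Put `V i a = (⋃ b ≠ a, C i b)ᶜ`: an open set
contained in `C i a`, and `V i a`, `V i a'` are disjoint for `a ≠ a'` (all for fixed `i`). The sets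
`V i a` (`i : ℕ`, `a : I`) cover `Z`: for `z` let `α i` be the least `a` with `z ∈ C i a` and choose
`k` with `α k` least possible; then `z ∈ V (k + 1) (α k)`. Apply `closurePreserving_refinement` to the
cover `V i a` (index type `ℕ × I`): closed sets `E i a ⊆ V i a` which cover `Z`, with
`E' i = ⋃ a, E i a` closed. By normality choose open `O i` and `P i` with `E' i ⊆ P i`,
`closure (P i) ⊆ O i` and `closure (O i) ⊆ ⋃ a, V i a`. For fixed `i` the family `V i a ∩ O i` is
discrete, in particular locally finite. Put `W i a = (V i a ∩ O i) \ ⋃ j < i, closure (P j)`. These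
are open sets contained in `U a`; they cover `Z` (take the least `i` with `z ∈ closure (P i)`);
they are locally finite: if `z ∈ P i` then `P i` does not meet `W j a` for `j > i`, and for the
finitely many `j ≤ i` the families are locally finite. -/
theorem paracompact_of_closedMap {X Z : Type} [TopologicalSpace X] [TopologicalSpace Z]
    [ParacompactSpace X] [T2Space X] {f : X → Z} (hf : Continuous f) (hc : IsClosedMap f)
    (hs : Function.Surjective f) : ParacompactSpace Z := by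
  classical
  have hN : NormalSpace Z := Michael_normal hf hc hs
  refine ⟨fun I U hU hcov => ?_⟩
  -- well-order the index type
  obtain ⟨r, hr⟩ : ∃ r : I → I → Prop, IsWellOrder I r := ⟨WellOrderingRel, inferInstance⟩
  -- closure preserving closed covers
  let Good : (I → Set Z) → Prop := fun C => (∀ a, C a ⊆ U a) ∧ (⋃ a, C a = univ) ∧
      ∀ J : Set I, IsClosed (⋃ a ∈ J, C a)
  obtain ⟨C0, hC0⟩ : ∃ C, Good C := closurePreserving_refinement hf hc hs U hU hcov
  have hleast : ∀ C : I → Set Z, (⋃ a, C a = univ) → ∀ z, ∃ a, z ∈ C a ∧ ∀ b, r b a → z ∉ C b := by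
    intro C hC z
    have hne : {a | z ∈ C a}.Nonempty := by
      have : z ∈ ⋃ a, C a := by rw [hC]; trivial
      exact mem_iUnion.1 this
    refine ⟨hr.wf.min _ hne, hr.wf.min_mem _ hne, fun b hb hz => ?_⟩
    exact hr.wf.not_lt_min _ hz hb
  have hstep : ∀ C : {C : I → Set Z // Good C}, ∃ C' : {C : I → Set Z // Good C},
      ∀ a b, r b a → Disjoint (C'.1 a) (C.1 b) := by
    rintro ⟨C, hC1, hC2, hC3⟩
    obtain ⟨C', h1, h2, h3⟩ := closurePreserving_refinement hf hc hs
      (fun a => U a \ ⋃ b ∈ {b | r b a}, C b) (fun a => (hU a).sdiff (hC3 _)) (by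
        rw [eq_univ_iff_forall]
        intro z
        obtain ⟨a, ha, hb⟩ := hleast C hC2 z
        refine mem_iUnion.2 ⟨a, hC1 a ha, fun hz => ?_⟩
        obtain ⟨b, hb1, hb2⟩ := mem_iUnion₂.1 hz
        exact hb b hb1 hb2)
    refine ⟨⟨C', fun a => (h1 a).trans sdiff_subset, h2, h3⟩, fun a b hab => ?_⟩
    rw [disjoint_left]
    intro z hz hz'
    exact (h1 a hz).2 (mem_iUnion₂.2 ⟨b, hab, hz'⟩)
  choose next hnext using hstep
  let C : ℕ → {C : I → Set Z // Good C} := fun n => Nat.rec ⟨C0, hC0⟩ (fun _ C => next C) n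
  have hCsucc : ∀ n a b, r b a → Disjoint ((C (n + 1)).1 a) ((C n).1 b) := fun n a b h =>
    hnext (C n) a b h
  let V : ℕ → I → Set Z := fun i a => (⋃ b ∈ {b | b ≠ a}, (C i).1 b)ᶜ
  have hVo : ∀ i a, IsOpen (V i a) := fun i a => ((C i).2.2.2 _).isOpen_compl
  have hVC : ∀ i a, V i a ⊆ (C i).1 a := by
    intro i a z hz
    have : z ∈ ⋃ a, (C i).1 a := by rw [(C i).2.2.1]; trivial
    obtain ⟨b, hb⟩ := mem_iUnion.1 this
    by_cases hba : b = a
    · exact hba ▸ hb
    · exact (hz (mem_iUnion₂.2 ⟨b, hba, hb⟩)).elim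
  have hVd : ∀ i a a' z, z ∈ V i a → z ∈ V i a' → a = a' := by
    intro i a a' z hz hz'
    by_contra h
    exact hz' (mem_iUnion₂.2 ⟨a, h, hVC i a hz⟩)
  have hVcov : ⋃ p : ℕ × I, V p.1 p.2 = univ := by
    rw [eq_univ_iff_forall]
    intro z
    have hα : ∀ i, ∃ a, z ∈ (C i).1 a ∧ ∀ b, r b a → z ∉ (C i).1 b := fun i =>
      hleast _ (C i).2.2.1 z
    choose α hα1 hα2 using hα
    have hne : (range α).Nonempty := ⟨α 0, 0, rfl⟩
    obtain ⟨k, hk⟩ := hr.wf.min_mem _ hne
    have hmin : ∀ i, ¬ r (α i) (α k) := by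
      intro i hi
      rw [hk] at hi
      exact hr.wf.not_lt_min (range α) (mem_range_self i) hi
    refine mem_iUnion.2 ⟨(k + 1, α k), ?_⟩
    intro hz
    obtain ⟨b, hb1, hb2⟩ := mem_iUnion₂.1 hz
    rcases trichotomous_of r b (α k) with h | h | h
    · -- b < α k
      have h3 := hmin (k + 1)
      rcases trichotomous_of r (α (k + 1)) b with h4 | h4 | h4
      · exact h3 (trans_of r h4 h)
      · exact h3 (h4 ▸ h)
      · exact hα2 (k + 1) b h4 hb2
    · exact hb1 h
    · exact disjoint_left.1 (hCsucc k b (α k) h) hb2 (hα1 k)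
  obtain ⟨E, hE1, hE2, hE3⟩ := closurePreserving_refinement hf hc hs
    (fun p : ℕ × I => V p.1 p.2) (fun p => hVo _ _) hVcov
  have hE' : ∀ i, IsClosed (⋃ a, E (i, a)) := by
    intro i
    have : (⋃ a, E (i, a)) = ⋃ p ∈ {p : ℕ × I | p.1 = i}, E p := by
      ext z
      simp only [mem_iUnion, mem_ofPred_eq, exists_prop, Prod.exists]
      constructor
      · rintro ⟨a, ha⟩
        exact ⟨i, a, rfl, ha⟩
      · rintro ⟨j, a, rfl, ha⟩
        exact ⟨a, ha⟩
    rw [this]
    exact hE3 _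
  have hOP : ∀ i, ∃ P O : Set Z, IsOpen P ∧ IsOpen O ∧ (⋃ a, E (i, a)) ⊆ P ∧ closure P ⊆ O ∧
      closure O ⊆ ⋃ a, V i a := by
    intro i
    obtain ⟨O, hO1, hO2, hO3⟩ := normal_exists_closure_subset (hE' i)
      (isOpen_iUnion fun a => hVo i a) (iUnion_subset fun a =>
        (hE1 (i, a)).trans (subset_iUnion (V i) a))
    obtain ⟨P, hP1, hP2, hP3⟩ := normal_exists_closure_subset (hE' i) hO1 hO2
    exact ⟨P, O, hP1, hO1, hP2, hP3, hO3⟩
  choose P O hP hO hEP hPO hOV using hOP
  -- the family for fixed `i` is locally finite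
  have hloc : ∀ i z, ∃ t ∈ 𝓝 z, {a | (V i a ∩ O i ∩ t).Nonempty}.Finite := by
    intro i z
    by_cases hz : z ∈ ⋃ a, V i a
    · obtain ⟨a, ha⟩ := mem_iUnion.1 hz
      refine ⟨V i a, (hVo i a).mem_nhds ha, (finite_singleton a).subset ?_⟩
      rintro b ⟨y, ⟨hy1, -⟩, hy2⟩
      exact hVd i b a y hy1 hy2
    · refine ⟨(closure (O i))ᶜ, isClosed_closure.isOpen_compl.mem_nhds fun h => hz (hOV i h), ?_⟩
      convert finite_empty
      rw [eq_empty_iff_forall_notMem]
      rintro b ⟨y, ⟨-, hy1⟩, hy2⟩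
      exact hy2 (subset_closure hy1)
  let W : ℕ × I → Set Z := fun p => (V p.1 p.2 ∩ O p.1) \ ⋃ j ∈ Finset.range p.1, closure (P j)
  refine ⟨ℕ × I, W, fun p => ?_, ?_, ?_, fun p => ⟨p.2, ?_⟩⟩
  · exact ((hVo _ _).inter (hO _)).sdiff (isClosed_biUnion_finset fun j _ => isClosed_closure)
  · rw [eq_univ_iff_forall]
    intro z
    have hex : ∃ i, z ∈ closure (P i) := by
      have : z ∈ ⋃ p, E p := by rw [hE2]; trivial
      obtain ⟨⟨i, a⟩, hp⟩ := mem_iUnion.1 this
      exact ⟨i, subset_closure (hEP i (mem_iUnion.2 ⟨a, hp⟩))⟩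
    have h1 := Nat.find_spec hex
    have h2 : z ∈ ⋃ a, V (Nat.find hex) a := hOV _ (subset_closure (hPO _ h1))
    obtain ⟨a, ha⟩ := mem_iUnion.1 h2
    refine mem_iUnion.2 ⟨(Nat.find hex, a), ⟨ha, hPO _ h1⟩, fun hz => ?_⟩
    obtain ⟨j, hj1, hj2⟩ := mem_iUnion₂.1 hz
    exact Nat.find_min hex (Finset.mem_range.1 hj1) hj2
  · intro z
    obtain ⟨i, hi⟩ : ∃ i, z ∈ P i := by
      have : z ∈ ⋃ p, E p := by rw [hE2]; trivial
      obtain ⟨⟨i, a⟩, hp⟩ := mem_iUnion.1 this
      exact ⟨i, hEP i (mem_iUnion.2 ⟨a, hp⟩)⟩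
    choose t ht htf using fun j => hloc j z
    refine ⟨P i ∩ ⋂ j ∈ Finset.range (i + 1), t j, Filter.inter_mem ((hP i).mem_nhds hi)
      ((Filter.biInter_finset_mem _).2 fun j _ => ht j), ?_⟩
    have hfin : (⋃ j ∈ Finset.range (i + 1),
        (fun a => (j, a)) '' {a | (V j a ∩ O j ∩ t j).Nonempty}).Finite :=
      (Finset.range (i + 1)).finite_toSet.biUnion fun j _ => (htf j).image _
    refine hfin.subset ?_
    rintro ⟨j, a⟩ ⟨y, hy1, hy2, hy3⟩
    have hji : j ≤ i := by
      by_contra hcon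
      push Not at hcon
      exact hy1.2 (mem_iUnion₂.2 ⟨i, Finset.mem_range.2 hcon, subset_closure hy2⟩)
    refine mem_iUnion₂.2 ⟨j, Finset.mem_range.2 (by omega), a, ?_, rfl⟩
    refine ⟨y, hy1.1, ?_⟩
    exact mem_iInter₂.1 hy3 j (Finset.mem_range.2 (by omega))
  · rintro z ⟨⟨hz, -⟩, -⟩
    exact (C p.1).2.1 p.2 (hVC _ _ hz)

end Pool.Agent.W3e58c0b
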