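import Mathlib

/-!
# Nested locally finite families (helper78)
-/

set_option autoImplicit false

namespace Pool.Agent.W3e58c0b

open Set Topology

/-- One step. Proof: let `x` be a point; it has a neighbourhood `V` meeting `F l` for only finitely many
lists `l` of length `n`, and for each of these finitely many `l` a neighbourhood meeting `F' (a :: l)`
for only finitely many `a`. Intersect. -/
theorem locallyFinite_step {T I : Type} [TopologicalSpace T] (n : ℕ) (F F' : List I → Set T)
    (hF : LocallyFinite (fun l : {l : List I // l.length = n} => F l.1))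
    (hsub : ∀ a l, l.length = n → F' (a :: l) ⊆ F l)
    (hlf : ∀ l, l.length = n → LocallyFinite (fun a => F' (a :: l))) :
    LocallyFinite (fun l : {l : List I // l.length = n + 1} => F' l.1) := by
  intro x
  obtain ⟨V, hV, hfin⟩ := hF x
  have h1 : ∀ l : {l : List I // l.length = n}, ∃ t ∈ 𝓝 x,
      {a | (F' (a :: l.1) ∩ t).Nonempty}.Finite := fun l => hlf l.1 l.2 x
  choose t ht hfin2 using h1
  refine ⟨V ∩ ⋂ l ∈ {l : {l : List I // l.length = n} | (F l.1 ∩ V).Nonempty}, t l,
    Filter.inter_mem hV ((Filter.biInter_mem hfin).2 fun l _ => ht l), ?_⟩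
  have hbig : (⋃ l ∈ {l : {l : List I // l.length = n} | (F l.1 ∩ V).Nonempty},
      (fun a => (⟨a :: l.1, by rw [List.length_cons, l.2]⟩ : {l : List I // l.length = n + 1})) ''
        {a | (F' (a :: l.1) ∩ t l).Nonempty}).Finite :=
    hfin.biUnion fun l _ => (hfin2 l).image _
  refine hbig.subset ?_
  rintro ⟨l', hl'⟩ ⟨y, hy1, hy2, hy3⟩
  rcases l' with _ | ⟨a, l⟩
  · simp at hl'
  have hl : l.length = n := by simpa using hl'
  have hmem : (⟨l, hl⟩ : {l : List I // l.length = n}) ∈
      {l : {l : List I // l.length = n} | (F l.1 ∩ V).Nonempty} :=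
    ⟨y, hsub a l hl hy1, hy2⟩
  refine mem_biUnion hmem ⟨a, ⟨y, hy1, ?_⟩, rfl⟩
  exact mem_iInter₂.1 hy3 ⟨l, hl⟩ hmem

/-- By induction from `locallyFinite_step`. -/
theorem nested_locallyFinite {T I : Type} [TopologicalSpace T] (F : List I → Set T)
    (hsub : ∀ a l, F (a :: l) ⊆ F l) (hlf : ∀ l, LocallyFinite (fun a => F (a :: l))) (n : ℕ) :
    LocallyFinite (fun l : {l : List I // l.length = n} => F l.1) := by
  induction n with
  | zero =>
    have : Finite {l : List I // l.length = 0} := by
      have : Subsingleton {l : List I // l.length = 0} := by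
        constructor
        rintro ⟨l, hl⟩ ⟨l', hl'⟩
        rw [List.length_eq_zero_iff] at hl hl'
        subst hl; subst hl'
        rfl
      infer_instance
    exact locallyFinite_of_finite _
  | succ n ih =>
    exact locallyFinite_step n F F ih (fun a l _ => hsub a l) fun l _ => hlf l

/-- Proof: at `(z, y)` take a neighbourhood of `z` meeting only finitely many `U a`, and for each of
these `a` a neighbourhood of `y` meeting only finitely many `W a b`; intersect the latter. -/
theorem locallyFinite_prod {Z Y I J : Type} [TopologicalSpace Z] [TopologicalSpace Y]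
    (U : I → Set Z) (hU : LocallyFinite U) (W : I → J → Set Y) (hW : ∀ a, LocallyFinite (W a)) :
    LocallyFinite (fun p : I × J => U p.1 ×ˢ W p.1 p.2) := by
  rintro ⟨z, y⟩
  obtain ⟨V, hV, hfin⟩ := hU z
  have h1 : ∀ a, ∃ t ∈ 𝓝 y, {b | (W a b ∩ t).Nonempty}.Finite := fun a => hW a y
  choose t ht hfin2 using h1
  refine ⟨V ×ˢ ⋂ a ∈ {a | (U a ∩ V).Nonempty}, t a,
    prod_mem_nhds hV ((Filter.biInter_mem hfin).2 fun a _ => ht a), ?_⟩
  have hbig : (⋃ a ∈ {a | (U a ∩ V).Nonempty},
      (fun b => ((a, b) : I × J)) '' {b | (W a b ∩ t a).Nonempty}).Finite :=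
    hfin.biUnion fun a _ => (hfin2 a).image _
  refine hbig.subset ?_
  rintro ⟨a, b⟩ ⟨⟨z', y'⟩, hy1, hy2⟩
  have hmem : a ∈ {a | (U a ∩ V).Nonempty} := ⟨z', hy1.1, hy2.1⟩
  refine mem_biUnion hmem ⟨b, ⟨y', hy1.2, ?_⟩, rfl⟩
  exact mem_iInter₂.1 hy2.2 a hmem

end Pool.Agent.W3e58c0b
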