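import Pool.Agent.W_3e58c0b_h78.CompCrit
import Pool.Agent.W_3e58c0b_h78.NestLF
import Pool.Agent.W_3e58c0_h78.Main

/-!
# A winning strategy gives normal products (helper78)
-/

set_option autoImplicit false

namespace Pool.Agent.W3e58c0b

open Set Topology

section prodThm

variable {Z Y : Type} [TopologicalSpace Z] [TopologicalSpace Y]
variable (S : Strat Z) (E : S.St → Z → Set Z) (U : S.St → Z → Set Z)
variable (G₁ G₂ : S.St → Z → Y → Set Z) (W : S.St → Z → Y → Set Y)

/-- the next closed set -/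
def prodThmC {Z : Type} (F E G₁ G₂ : Set Z) : Set Z := (F ∩ E) \ (G₁ ∪ G₂)

/-- the state and the closed set of a list -/
def prodThmPP : List (Z × Y) → S.St × Set Z
  | [] => (S.init, univ)
  | p :: l =>
    (S.next (prodThmPP l).1 (prodThmC (prodThmPP l).2 (E (prodThmPP l).1 p.1)
      (G₁ (prodThmPP l).1 p.1 p.2) (G₂ (prodThmPP l).1 p.1 p.2)),
      prodThmC (prodThmPP l).2 (E (prodThmPP l).1 p.1)
        (G₁ (prodThmPP l).1 p.1 p.2) (G₂ (prodThmPP l).1 p.1 p.2))

/-- the region of a list -/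
def prodThmReg (st : List (Z × Y) → S.St) : List (Z × Y) → Set (Z × Y)
  | [] => univ
  | p :: l => prodThmReg st l ∩ (U (st l) p.1 ×ˢ W (st l) p.1 p.2)

/-- the open set of a list -/
def prodThmG (G : S.St → Z → Y → Set Z) (st : List (Z × Y) → S.St) : List (Z × Y) → Set (Z × Y)
  | [] => ∅
  | p :: l => (G (st l) p.1 p.2 ×ˢ univ) ∩ prodThmReg S U W st (p :: l)

theorem prodThm_isOpen_reg (hU : ∀ σ a, IsOpen (U σ a)) (hW : ∀ σ a y, IsOpen (W σ a y))
    (st : List (Z × Y) → S.St) (l : List (Z × Y)) : IsOpen (prodThmReg S U W st l) := by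
  induction l with
  | nil => exact isOpen_univ
  | cons p l ih => exact ih.inter ((hU _ _).prod (hW _ _ _))

theorem prodThm_isOpen_G (G : S.St → Z → Y → Set Z) (hG : ∀ σ a y, IsOpen (G σ a y))
    (hU : ∀ σ a, IsOpen (U σ a)) (hW : ∀ σ a y, IsOpen (W σ a y))
    (st : List (Z × Y) → S.St) (l : List (Z × Y)) : IsOpen (prodThmG S U W G st l) := by
  cases l with
  | nil => exact isOpen_empty
  | cons p l => exact ((hG _ _ _).prod isOpen_univ).inter (prodThm_isOpen_reg S U W hU hW st _)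

omit [TopologicalSpace Y] in
theorem prodThm_G_subset (G : S.St → Z → Y → Set Z) (st : List (Z × Y) → S.St)
    (l : List (Z × Y)) : prodThmG S U W G st l ⊆ prodThmReg S U W st l := by
  cases l with
  | nil => exact empty_subset _
  | cons p l => exact inter_subset_right

theorem prodThm_lf (hUl : ∀ σ, LocallyFinite (U σ)) (hWl : ∀ σ a, LocallyFinite (W σ a))
    (st : List (Z × Y) → S.St) (n : ℕ) :
    LocallyFinite (fun l : {l : List (Z × Y) // l.length = n} => prodThmReg S U W st l.1) := by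
  refine nested_locallyFinite (prodThmReg S U W st) (fun a l => inter_subset_left) (fun l => ?_) n
  exact (locallyFinite_prod (U (st l)) (hUl _) (W (st l)) (hWl _)).subset
    fun p => inter_subset_right

theorem prodThm_disjoint (G : S.St → Z → Y → Set Z) (hUl : ∀ σ, LocallyFinite (U σ))
    (hWl : ∀ σ a, LocallyFinite (W σ a)) (st : List (Z × Y) → S.St) {B : Set (Z × Y)}
    (hB : ∀ σ a y, Disjoint (closure (G σ a y) ×ˢ closure (W σ a y)) B) (n : ℕ) :
    Disjoint (closure (⋃ l : {l : List (Z × Y) // l.length = n}, prodThmG S U W G st l.1)) B := by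
  have hlf : LocallyFinite (fun l : {l : List (Z × Y) // l.length = n} =>
      prodThmG S U W G st l.1) :=
    (prodThm_lf S U W hUl hWl st n).subset fun l => prodThm_G_subset S U W G st l.1
  rw [hlf.closure_iUnion, disjoint_iUnion_left]
  rintro ⟨l, hl⟩
  simp only
  cases l with
  | nil =>
    change Disjoint (closure (∅ : Set (Z × Y))) B
    rw [closure_empty]
    exact disjoint_bot_left
  | cons p l =>
    refine (hB (st l) p.1 p.2).mono_left ?_
    rw [← closure_prod_eq]
    refine closure_mono ?_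
    rintro ⟨z, y⟩ ⟨⟨h1, -⟩, -, h2⟩
    exact ⟨h1, h2.2⟩

end prodThm

/-- Telgarsky's theorem (a version of it). Proof. Let `A`, `B` be disjoint closed sets of `Z × Y`. For
a valid state `σ` of the strategy let `U σ a`, `E σ a` (`a : Z`) be as in `exists_cover_of_LCS` for the
set `L σ`. For `a : Z` and `y : Y` let `V σ a y`, `G₁ σ a y`, `G₂ σ a y` be given by `good_rect`
(file `W_3e58c0_h78/Rect.lean`) for the compact set `E σ a ∩ L σ`, and let `W σ a y`
(`y : Y`) be a precise locally finite open refinement of the cover `V σ a y` (`y : Y`) of `Y`. For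
lists `l : List (Z × Y)` (newest entry first) define by recursion a state `st l`, a closed set
`cl l` of `Z` and a region `reg l` of `Z × Y`: `st [] = init`, `cl [] = univ`, `reg [] = univ`,
`cl ((a, y) :: l) = (cl l ∩ E (st l) a) \ (G₁ (st l) a y ∪ G₂ (st l) a y)`,
`st ((a, y) :: l) = next (st l) (cl ((a, y) :: l))`,
`reg ((a, y) :: l) = reg l ∩ (U (st l) a ×ˢ W (st l) a y)`. All `st l` are valid because
`cl ((a, y) :: l)` is disjoint from `L (st l)`. For each `n` the regions of the lists of length `n`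
form a locally finite family (`nested_locallyFinite`, `locallyFinite_prod`). For `i = 1, 2` let
`O i n` be the union of the open sets `(G i (st l) a y ×ˢ univ) ∩ reg ((a, y) :: l)` over all lists
`(a, y) :: l` of length `n`. Its closure is the union of the closures, and these are contained in
`closure (G i (st l) a y) ×ˢ closure (V (st l) a y)`, so they do not meet `B` if `i = 1` and do not
meet `A` if `i = 2`. Suppose that a point `(z, y₀)` is in none of the sets `O i n`. Then we find lists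
`l n` of length `n`, each an extension of the previous one by one entry, with `z ∈ cl (l n)` and
`(z, y₀) ∈ reg (l n)`: choose `a` with `z ∈ E (st (l n)) a` and `y` with `y₀ ∈ W (st (l n)) a y`. The
states `st (l n)` and the closed sets `F n = cl (l (n + 1))` contradict `win`. So the sets `O 1 n` cover
`A`, the sets `O 2 n` cover `B`, and one concludes with `hasSeparatingCovers_iff_separatedNhds` as at
the end of `W_3e58c0_h78/Main.lean` (`hasSeparatingCover_of_countable`). -/
theorem normal_prod_of_strat {Z : Type} [TopologicalSpace Z] [ParacompactSpace Z] [T2Space Z]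
    (S : Strat Z) (Y : Type) [TopologicalSpace Y] [ParacompactSpace Y] [T2Space Y] :
    NormalSpace (Z × Y) := by
  classical
  refine ⟨fun A B hA hB hAB => ?_⟩
  have h1 : ∀ σ : S.St, ∃ (U E : Z → Set Z), (∀ a, IsOpen (U a)) ∧ LocallyFinite U ∧
      (∀ a, IsClosed (E a)) ∧ (∀ a, E a ⊆ U a) ∧
      (S.inv σ → ⋃ a, E a = univ ∧ ∀ a, IsCompact (E a ∩ S.L σ)) := by
    intro σ
    by_cases hσ : S.inv σ
    · obtain ⟨U, E, a1, a2, a3, a4, a5, a6⟩ := exists_cover_of_LCS (S.lcs σ hσ)
      exact ⟨U, E, a1, a2, a3, a4, fun _ => ⟨a5, a6⟩⟩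
    · refine ⟨fun _ => ∅, fun _ => ∅, fun _ => isOpen_empty, ?_, fun _ => isClosed_empty,
        fun _ => subset_rfl, fun h => absurd h hσ⟩
      intro x
      refine ⟨univ, Filter.univ_mem, ?_⟩
      simp
  choose U E hUo hUl hEc hEU hcov using h1
  have h2 : ∀ (σ : S.St) (a : Z) (y : Y), ∃ (V : Set Y) (G₁ G₂ : Set Z), IsOpen V ∧ y ∈ V ∧
      IsOpen G₁ ∧ IsOpen G₂ ∧ (S.inv σ → E σ a ∩ S.L σ ⊆ G₁ ∪ G₂) ∧
      Disjoint (closure G₁ ×ˢ closure V) B ∧ Disjoint (closure G₂ ×ˢ closure V) A := by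
    intro σ a y
    by_cases hσ : S.inv σ
    · obtain ⟨V, G₁, G₂, b1, b2, b3, b4, b5, b6, b7⟩ :=
        Pool.Agent.W3e58c0h78.good_rect hA hB hAB _ ((hcov σ hσ).2 a) y
      exact ⟨V, G₁, G₂, b1, b2, b3, b4, fun _ => b5, b6, b7⟩
    · obtain ⟨V, G₁, G₂, b1, b2, b3, b4, b5, b6, b7⟩ :=
        Pool.Agent.W3e58c0h78.good_rect hA hB hAB _ isCompact_empty y
      exact ⟨V, G₁, G₂, b1, b2, b3, b4, fun h => absurd h hσ, b6, b7⟩
  choose V G₁ G₂ hVo hyV hG₁ hG₂ hKG hB1 hA2 using h2
  have h3 := fun (σ : S.St) (a : Z) => precise_refinement (V σ a) (hVo σ a) (by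
    refine eq_univ_of_forall fun y => mem_iUnion.2 ⟨y, hyV σ a y⟩)
  choose W hWo hWc hWl hWV using h3
  let pp := prodThmPP S E G₁ G₂
  let st : List (Z × Y) → S.St := fun l => (pp l).1
  let cl : List (Z × Y) → Set Z := fun l => (pp l).2
  let reg := prodThmReg S U W st
  have hcl : ∀ l, IsClosed (cl l) := by
    intro l
    induction l with
    | nil => exact isClosed_univ
    | cons p l ih =>
      exact (ih.inter (hEc _ _)).sdiff ((hG₁ _ _ _).union (hG₂ _ _ _))
  have hdis : ∀ (p : Z × Y) l, S.inv (st l) → Disjoint (cl (p :: l)) (S.L (st l)) := by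
    intro p l hl
    rw [Set.disjoint_left]
    rintro x ⟨⟨-, hx1⟩, hx2⟩ hx3
    exact hx2 (hKG (st l) p.1 p.2 hl ⟨hx1, hx3⟩)
  have hinv : ∀ l, S.inv (st l) := by
    intro l
    induction l with
    | nil => exact S.inv_init
    | cons p l ih => exact S.inv_next _ _ ih (hcl (p :: l)) (hdis p l ih)
  let O : (S.St → Z → Y → Set Z) → ℕ → Set (Z × Y) := fun G n =>
    ⋃ l : {l : List (Z × Y) // l.length = n}, prodThmG S U W G st l.1
  have key : ∀ z y, ∃ n, (z, y) ∈ O G₁ n ∪ O G₂ n := by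
    intro z y
    by_contra hcon
    push Not at hcon
    have hst : ∀ l : {l : List (Z × Y) // z ∈ cl l ∧ (z, y) ∈ reg l},
        ∃ p : Z × Y, z ∈ cl (p :: l.1) ∧ (z, y) ∈ reg (p :: l.1) := by
      rintro ⟨l, hl1, hl2⟩
      have h4 : z ∈ ⋃ a, E (st l) a := by rw [(hcov (st l) (hinv l)).1]; trivial
      obtain ⟨a, ha⟩ := mem_iUnion.1 h4
      have h5 : y ∈ ⋃ y', W (st l) a y' := by rw [hWc]; trivial
      obtain ⟨y', hy'⟩ := mem_iUnion.1 h5
      have hreg : (z, y) ∈ reg ((a, y') :: l) := ⟨hl2, hEU _ _ ha, hy'⟩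
      refine ⟨(a, y'), ⟨⟨hl1, ha⟩, ?_⟩, hreg⟩
      intro h6
      refine hcon (l.length + 1) ?_
      rcases h6 with h6 | h6
      · left
        exact mem_iUnion.2 ⟨⟨(a, y') :: l, rfl⟩, ⟨h6, trivial⟩, hreg⟩
      · right
        exact mem_iUnion.2 ⟨⟨(a, y') :: l, rfl⟩, ⟨h6, trivial⟩, hreg⟩
    choose nx hn1 hn2 using hst
    let L : ℕ → {l : List (Z × Y) // z ∈ cl l ∧ (z, y) ∈ reg l} := fun m =>
      Nat.rec ⟨[], trivial, trivial⟩ (fun _ l => ⟨nx l :: l.1, hn1 l, hn2 l⟩) m
    have hL : ∀ m, (L (m + 1)).1 = nx (L m) :: (L m).1 := fun m => rfl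
    have hwin := S.win (fun n => st (L n).1) (fun n => cl (L (n + 1)).1) rfl (fun n => hcl _)
      (fun n => by
        change cl (L (n + 1 + 1)).1 ⊆ cl (L (n + 1)).1
        rw [hL (n + 1)]
        exact fun x hx => hx.1.1)
      (fun n => by
        change Disjoint (cl (L (n + 1)).1) (S.L (st (L n).1))
        rw [hL n]
        exact hdis _ _ (hinv _))
      (fun n => rfl)
    have hz : z ∈ ⋂ n, cl (L (n + 1)).1 := mem_iInter.2 fun n => (L (n + 1)).2.1
    rw [hwin] at hz
    exact hz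
  rw [← hasSeparatingCovers_iff_separatedNhds]
  have d1 : ∀ n, Disjoint (closure (O G₁ n)) B := fun n =>
    prodThm_disjoint S U W G₁ hUl hWl st (fun σ a y => (hB1 σ a y).mono_left
      (prod_mono subset_rfl (closure_mono (hWV σ a y)))) n
  have d2 : ∀ n, Disjoint (closure (O G₂ n)) A := fun n =>
    prodThm_disjoint S U W G₂ hUl hWl st (fun σ a y => (hA2 σ a y).mono_left
      (prod_mono subset_rfl (closure_mono (hWV σ a y)))) n
  have o1 : ∀ n, IsOpen (O G₁ n) := fun n =>
    isOpen_iUnion fun l => prodThm_isOpen_G S U W G₁ hG₁ hUo hWo st l.1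
  have o2 : ∀ n, IsOpen (O G₂ n) := fun n =>
    isOpen_iUnion fun l => prodThm_isOpen_G S U W G₂ hG₂ hUo hWo st l.1
  constructor
  · refine Pool.Agent.W3e58c0h78.hasSeparatingCover_of_countable (O G₁) o1 ?_ d1
    rintro ⟨z, y⟩ hzy
    obtain ⟨n, h | h⟩ := key z y
    · exact mem_iUnion.2 ⟨n, h⟩
    · exact absurd hzy (disjoint_left.1 (d2 n) (subset_closure h))
  · refine Pool.Agent.W3e58c0h78.hasSeparatingCover_of_countable (O G₂) o2 ?_ d2
    rintro ⟨z, y⟩ hzy
    obtain ⟨n, h | h⟩ := key z y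
    · exact absurd hzy (disjoint_left.1 (d1 n) (subset_closure h))
    · exact mem_iUnion.2 ⟨n, h⟩

end Pool.Agent.W3e58c0b
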