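import Pool.Agent.W_3e58c0b_h78.GameThm2
import Pool.Agent.W_3e58c0b_h78.ClosedMap2
import Pool.Agent.W_3e58c0b_h78.ProdThm
import Pool.Agent.W_3e58c0b_h78.Michael
import Pool.Agent.W_3e58c0b_h78.CompCover
import Pool.Agent.W_3e58c0b_h78.Inst3

/-!
# The final theorem (helper78)
-/

set_option autoImplicit false

namespace Pool.Agent.W3e58c0b

open Set Topology

open Pool.Agent.W3e58c0h78 (InNP)

theorem inNP_of_strat {Z : Type} [TopologicalSpace Z] [ParacompactSpace Z] [T2Space Z]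
    (S : Strat Z) : InNP Z :=
  ⟨inferInstance, fun Y _ _ _ => normal_prod_of_strat S Y⟩

/-- The game theorem. -/
theorem inNP_of_wGameMap {X Z : Type} [TopologicalSpace X] [TopologicalSpace Z] (hX : InNP X)
    {f : X → Z} (hf : Continuous f) (hc : IsClosedMap f)
    (hs : Function.Surjective f) (hW : WGameMap f) : InNP Z := by
  have _i0 : T4Space X := hX.t4
  have _i1 : ParacompactSpace X := InNP.paracompact hX
  have _i2 : T4Space Z := Pool.Agent.W3e58c0h78.t4_of_closedMap hf hc hs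
  have _i3 : ParacompactSpace Z := paracompact_of_closedMap hf hc hs
  obtain ⟨S⟩ := stratH_of_wGameMap hX hf hW
  obtain ⟨S'⟩ := strat_of_stratH S hf hc hs
  exact inNP_of_strat S'

/-- The main theorem. -/
theorem inNP_main {X Z : Type} [TopologicalSpace X] [TopologicalSpace Z] (hX : InNP X)
    {f : X → Z} (hf : Continuous f) (hc : IsClosedMap f) (hs : Function.Surjective f)
    (T : ℕ → Set Z) (hT : ∀ n, IsCompact (T n)) (J : ℕ → Type) (N : (i : ℕ) → J i → Set X)
    (hN : ∀ i, LocallyFinite (N i)) (S : (i : ℕ) → J i → Set X) (hS : ∀ i j, IsCompact (S i j))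
    (h : ∀ z, z ∈ closure (⋃ n, T n) ∨ ∃ x, f x = z ∧
      (x ∈ closure (⋃ i, ⋃ j, ⋃ _ : x ∈ N i j, S i j) ∨ ∃ C : Set Z, IsCompact C ∧
        ∀ U, IsOpen U → C ⊆ U → ∃ i j, x ∈ N i j ∧ N i j ⊆ f ⁻¹' U)) : InNP Z := by
  have _i0 : T4Space X := hX.t4
  have _i1 : ParacompactSpace X := InNP.paracompact hX
  have _i2 : T4Space Z := Pool.Agent.W3e58c0h78.t4_of_closedMap hf hc hs
  have hex := fun n => exists_isCompact_image_eq hf hc hs (T n) (hT n)
  choose T' hT' hT'T using hex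
  refine inNP_of_wGameMap hX hf hc hs
    (wGameMap_of_network3 hf hc T' hT' J N hN S hS fun z => ?_)
  rcases h z with hz | ⟨x, hx, hC⟩
  · have h1 : closure (⋃ n, T n) = f '' closure (⋃ n, T' n) := by
      rw [← hc.closure_image_eq_of_continuous hf, image_iUnion]
      simp only [hT'T]
    rw [h1] at hz
    obtain ⟨x, hx1, hx2⟩ := hz
    exact ⟨x, hx2, Or.inl hx1⟩
  · exact ⟨x, hx, Or.inr hC⟩

end Pool.Agent.W3e58c0b
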