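import Pool.Agent.W_3e58c0_h78.Fin1

/-!
# Spaces in N(P) are paracompact (helper78)
-/

set_option autoImplicit false

namespace Pool.Agent.W3e58c0b

open Set Topology

open Pool.Agent.W3e58c0h78 (InNP)

/-- The pull-back of a locally finite refinement of the cover of the image by balls. -/
theorem Tamano_cover {X M : Type} [TopologicalSpace X] [MetricSpace M] (φ : X → M)
    (hφ : Continuous φ) {r : ℝ} (hr : 0 < r) :
    ∃ V : X → Set X, (∀ x, IsOpen (V x)) ∧ (⋃ x, V x) = univ ∧ LocallyFinite V ∧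
      ∀ x z, z ∈ V x → φ z ∈ Metric.ball (φ x) r := by
  obtain ⟨ψ, hψφ, hψ⟩ : ∃ ψ : X → range φ, (∀ x, (ψ x : M) = φ x) ∧ Continuous ψ :=
    ⟨fun x => ⟨φ x, x, rfl⟩, fun _ => rfl, hφ.subtype_mk _⟩
  obtain ⟨v, hvo, hvc, hvf, hvs⟩ := precise_refinement
    (fun x : X => {m : range φ | (m : M) ∈ Metric.ball (φ x) r})
    (fun x => Metric.isOpen_ball.preimage continuous_subtype_val) (by
      rw [eq_univ_iff_forall]
      rintro ⟨_, x, rfl⟩
      refine mem_iUnion.2 ⟨x, ?_⟩
      exact Metric.mem_ball_self hr)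
  refine ⟨fun x => ψ ⁻¹' v x, fun x => (hvo x).preimage hψ, ?_, hvf.preimage_continuous hψ, ?_⟩
  · rw [← preimage_iUnion, hvc, preimage_univ]
  · intro x z hz
    have h := hvs x hz
    rw [← hψφ z]
    exact h

/-- Tamano's theorem: a space in N(P) is paracompact. Proof. `X` is T4 (`InNP.t4`). Let
`e : X → StoneCech X` be the embedding (`stoneCechUnit`; `X` is completely regular), and let an open
cover `U a` of `X` be given. Choose open `U' a` in `StoneCech X` with `e ⁻¹' U' a = U a`; let `C` be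
the complement of `⋃ a, U' a`, a closed set. The sets `Δ = {(x, e x)}` and `univ ×ˢ C` of
`X × StoneCech X` are closed and disjoint; the product is normal (`StoneCech X` is compact Hausdorff).
By Urysohn's lemma (`exists_continuous_zero_one_of_isClosed`) there is a continuous `g` with values
in `[0, 1]`, `g = 0` on `Δ` and `g = 1` on `univ ×ˢ C`. Let `φ : C(X, C(StoneCech X, ℝ))` be
`ContinuousMap.curry g`; `M = C(StoneCech X, ℝ)` is a metric space. Let `B x` be the ball of
radius `1/2` around `φ x` in `M`. If `φ x' ∈ B x` then `g (x, e x') < 1/2` because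
`g (x', e x') = 0`. So `φ ⁻¹' B x` is contained in `e ⁻¹' P` where
`P = {y | g (x, y) ≤ 1/2}` is closed in `StoneCech X`, hence compact, and disjoint from `C`, so it is
covered by finitely many `U' a`, and `φ ⁻¹' B x ⊆ ⋃ a ∈ T x, U a` with `T x` finite. The
subspace `range φ` of `M` is metrizable, so it is paracompact; take a precise locally finite refinement
of its cover by the sets `B x` (`precise_refinement`) and pull it back to `X`: it is a locally finite
open cover `V x` of `X` with `V x ⊆ φ ⁻¹' B x`. The sets `V x ∩ U a` with `a ∈ T x` form a locally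
finite open refinement of the given cover. -/
theorem InNP.paracompact {X : Type} [TopologicalSpace X] (hX : InNP X) : ParacompactSpace X := by
  classical
  have _i1 : T4Space X := hX.t4
  have _i2 : NormalSpace (X × StoneCech X) := hX.2 (StoneCech X)
  have he : IsEmbedding (stoneCechUnit : X → StoneCech X) := isEmbedding_stoneCechUnit
  refine ⟨fun α U hU hcov => ?_⟩
  have h1 : ∀ a, ∃ U' : Set (StoneCech X), IsOpen U' ∧ stoneCechUnit ⁻¹' U' = U a := fun a =>
    he.isInducing.isOpen_iff.1 (hU a)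
  choose U' hU'o hU' using h1
  have hCc : IsClosed (⋃ a, U' a)ᶜ := (isOpen_iUnion hU'o).isClosed_compl
  have hΔ : IsClosed {p : X × StoneCech X | p.2 = stoneCechUnit p.1} :=
    isClosed_eq continuous_snd (continuous_stoneCechUnit.comp continuous_fst)
  have hD : IsClosed ((univ : Set X) ×ˢ (⋃ a, U' a)ᶜ) := isClosed_univ.prod hCc
  have hdisj : Disjoint {p : X × StoneCech X | p.2 = stoneCechUnit p.1}
      ((univ : Set X) ×ˢ (⋃ a, U' a)ᶜ) := by
    rw [Set.disjoint_left]
    rintro ⟨x, y⟩ hxy ⟨-, hy⟩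
    have hy1 : y = stoneCechUnit x := hxy
    subst hy1
    apply hy
    have hx : x ∈ ⋃ a, U a := by rw [hcov]; exact mem_univ x
    obtain ⟨a, ha⟩ := mem_iUnion.1 hx
    refine mem_iUnion.2 ⟨a, ?_⟩
    rw [← hU' a] at ha
    exact ha
  obtain ⟨g, hg0, hg1, -⟩ := exists_continuous_zero_one_of_isClosed hΔ hD hdisj
  obtain ⟨φ, hφ⟩ : ∃ φ : C(X, C(StoneCech X, ℝ)), ∀ x y, φ x y = g (x, y) :=
    ⟨g.curry, fun _ _ => rfl⟩
  have hT : ∀ x : X, ∃ T : Finset α, ∀ x', φ x' ∈ Metric.ball (φ x) (1 / 2) →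
      ∃ a ∈ T, x' ∈ U a := by
    intro x
    have hPc : IsCompact {y : StoneCech X | g (x, y) ≤ 1 / 2} := by
      apply IsClosed.isCompact
      exact isClosed_le (by fun_prop) continuous_const
    obtain ⟨T, hT⟩ := hPc.elim_finite_subcover U' hU'o (by
      intro y hy
      by_contra hyU
      have h2 : g (x, y) = 1 := hg1 (⟨mem_univ x, hyU⟩ : (x, y) ∈ (univ : Set X) ×ˢ (⋃ a, U' a)ᶜ)
      have h3 : g (x, y) ≤ 1 / 2 := hy
      rw [h2] at h3
      norm_num at h3)
    refine ⟨T, fun x' hx' => ?_⟩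
    have h2 : dist (φ x' (stoneCechUnit x')) (φ x (stoneCechUnit x')) < 1 / 2 :=
      (ContinuousMap.dist_apply_le_dist _).trans_lt hx'
    have h3 : g (x', stoneCechUnit x') = 0 :=
      hg0 (show (x', stoneCechUnit x').2 = stoneCechUnit (x', stoneCechUnit x').1 from rfl)
    have h4 : g (x, stoneCechUnit x') ≤ 1 / 2 := by
      rw [hφ, hφ, h3, Real.dist_eq, zero_sub, abs_neg] at h2
      exact (le_abs_self _).trans h2.le
    obtain ⟨a, ha⟩ := mem_iUnion.1 (hT h4)
    obtain ⟨haT, ha'⟩ := mem_iUnion.1 ha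
    refine ⟨a, haT, ?_⟩
    rw [← hU' a]
    exact ha'
  choose T hT using hT
  obtain ⟨V, hVo, hVc, hVf, hVs⟩ := Tamano_cover φ φ.continuous (r := 1 / 2) (by norm_num)
  refine ⟨Σ x : X, {a // a ∈ T x}, fun b => V b.1 ∩ U b.2.1, fun b =>
    (hVo b.1).inter (hU b.2.1), ?_, ?_, fun b => ⟨b.2.1, inter_subset_right⟩⟩
  · rw [eq_univ_iff_forall]
    intro z
    have hz : z ∈ ⋃ x, V x := by rw [hVc]; exact mem_univ _
    obtain ⟨x, hx⟩ := mem_iUnion.1 hz
    obtain ⟨a, ha, hza⟩ := hT x z (hVs x z hx)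
    exact mem_iUnion.2 ⟨⟨x, ⟨a, ha⟩⟩, hx, hza⟩
  · intro z
    obtain ⟨W, hW, hWf⟩ := hVf z
    refine ⟨W, hW, ?_⟩
    refine Set.Finite.subset (hWf.preimage' (f := fun b : (Σ x : X, {a // a ∈ T x}) => b.1) ?_) ?_
    · intro x _
      refine Set.Finite.subset (Set.finite_range fun a : {a // a ∈ T x} =>
        (⟨x, a⟩ : Σ x : X, {a // a ∈ T x})) ?_
      rintro ⟨x', a⟩ hx'
      have : x' = x := hx'
      subst this
      exact ⟨a, rfl⟩
    · rintro b ⟨y, ⟨hy1, hy2⟩, hyW⟩
      exact ⟨y, hy1, hyW⟩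

end Pool.Agent.W3e58c0b
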