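import Pool.Agent.W_3e58c0b_h78.Kernel
import Pool.Agent.W_3e58c0b_h78.CompCrit
import Pool.Agent.W_3e58c0b_h78.Tamano
import Pool.Agent.W_3e58c0b_h78.NestLF

/-!
# Spaces in N(P) with a winning strategy in the game `WGame` (helper78)
-/

set_option autoImplicit false

namespace Pool.Agent.W3e58c0b

open Set Topology

open Pool.Agent.W3e58c0h78 (InNP)

variable {X : Type} [TopologicalSpace X]

/-- Some set `H τ x` with `s` an initial part of `τ` meets `Q`. -/
def Tr (H : (ℕ → Mv X) → X → Set X) (Q : Set X) (s : List (Mv X)) : Prop :=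
  ∃ τ x, (∀ i, x ∈ cA (τ i)) ∧ Pre s τ ∧ (H τ x ∩ Q).Nonempty

/-- The compact kernel of a position. -/
def Ker (H : (ℕ → Mv X) → X → Set X) (Q : Set X) (s : List (Mv X)) : Set X :=
  cAs s \ ⋃ t : {t : List (Mv X) // ¬ Tr H Q (s ++ t)}, oAs t.1

theorem isClosed_Ker (H : (ℕ → Mv X) → X → Set X) (Q : Set X) (s : List (Mv X)) :
    IsClosed (Ker H Q s) :=
  (isClosed_cAs s).sdiff (isOpen_iUnion fun t => isOpen_oAs t.1)

theorem isCompact_Ker [ParacompactSpace X] [T2Space X]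
    (H : (ℕ → Mv X) → X → Set X) (Q : Set X)
    (hH : ∀ (s : List (Mv X)) (E : Cov X), ∃ F : Finset X,
        ∀ (τ : ℕ → Mv X) (x : X), (∀ i, x ∈ cA (τ i)) → ∀ a, a ∉ F →
          Pre (s ++ [(E, a)]) τ → Disjoint (H τ x) Q) (s : List (Mv X)) :
    IsCompact (Ker H Q s) := by
  refine isCompact_of_cov _ (isClosed_Ker H Q s) fun E => ?_
  obtain ⟨F, hF⟩ := hH s E
  refine ⟨F, fun x hx => ?_⟩
  obtain ⟨a, ha⟩ := E.cover_U x
  have haF : a ∈ F := by
    by_contra hnot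
    refine hx.2 ?_
    have hnT : ¬ Tr H Q (s ++ [(E, a)]) := by
      rintro ⟨τ, x', h1, h2, h3⟩
      exact h3.ne_empty (disjoint_iff_inter_eq_empty.1 (hF τ x' h1 a hnot h2))
    refine mem_iUnion.2 ⟨⟨[(E, a)], hnT⟩, ?_⟩
    intro b hb
    rw [List.mem_singleton] at hb
    rw [hb]; exact ha
  exact mem_biUnion haF (subset_closure ha)

/-- One step of the construction. -/
theorem step [ParacompactSpace X] [T2Space X]
    (H : (ℕ → Mv X) → X → Set X) (Q : Set X) (s : List (Mv X)) (𝒰 : Set (Set X))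
    (hUo : ∀ V ∈ 𝒰, IsOpen V) (hUc : ⋃₀ 𝒰 = univ) (R : Set X) :
    ∃ (E : X → Set X) (t : X → List (Mv X)), (∀ a, IsClosed (E a)) ∧ LocallyFinite E ∧
      (∀ a, E a ⊆ R) ∧
      (∀ a, (E a).Nonempty → E a ⊆ oAs (t a) ∧ ¬ Tr H Q (s ++ t a) ∧ ∃ V ∈ 𝒰, E a ⊆ V) ∧
      (IsClosed R → R ⊆ cAs s → Disjoint R (Ker H Q s) → R ⊆ ⋃ a, E a) := by
  classical
  by_cases hR : IsClosed R ∧ R ⊆ cAs s ∧ Disjoint R (Ker H Q s)
  · obtain ⟨h1, h2, h3⟩ := hR
    have hex : ∀ x, ∃ (t : List (Mv X)) (V : Set X), x ∈ R →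
        x ∈ oAs t ∧ ¬ Tr H Q (s ++ t) ∧ V ∈ 𝒰 ∧ x ∈ V := by
      intro x
      by_cases hx : x ∈ R
      · have hx' : x ∈ ⋃ t : {t : List (Mv X) // ¬ Tr H Q (s ++ t)}, oAs t.1 := by
          by_contra hcon
          exact disjoint_left.1 h3 hx ⟨h2 hx, hcon⟩
        obtain ⟨t, ht⟩ := mem_iUnion.1 hx'
        obtain ⟨V, hV, hxV⟩ : x ∈ ⋃₀ 𝒰 := by rw [hUc]; trivial
        exact ⟨t.1, V, fun _ => ⟨ht, t.2, hV, hxV⟩⟩
      · exact ⟨[], ∅, fun h => absurd h hx⟩
    choose t V htV using hex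
    obtain ⟨E, hE1, hE2, hE3, hE4, hE5, hE6⟩ := closed_refinement R h1
      (fun x => oAs (t x) ∩ V x) (fun x hx => ⟨(isOpen_oAs _).inter (hUo _ (htV x hx).2.2.1),
        (htV x hx).1, (htV x hx).2.2.2⟩)
    refine ⟨E, t, hE1, hE2, hE3, ?_, fun _ _ _ => hE6⟩
    intro a ha
    have haR := hE4 a ha
    exact ⟨(hE5 a).trans inter_subset_left, (htV a haR).2.1, V a, (htV a haR).2.2.1,
      (hE5 a).trans inter_subset_right⟩
  · refine ⟨fun _ => ∅, fun _ => [], fun _ => isClosed_empty, ?_, fun _ => empty_subset _,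
      fun a ha => absurd ha (by simp), fun h1 h2 h3 => absurd ⟨h1, h2, h3⟩ hR⟩
    intro x
    refine ⟨univ, Filter.univ_mem, ?_⟩
    refine (finite_empty).subset ?_
    rintro a ⟨z, hz, -⟩
    exact hz.elim

/-- The limit of an increasing sequence of lists. -/
theorem exists_limit (s : ℕ → List (Mv X)) (hs : ∀ m, ∃ u, s (m + 1) = s m ++ u) (x : X)
    (hx : ∀ m, x ∈ cAs (s m)) : ∃ τ : ℕ → Mv X, (∀ m, Pre (s m) τ) ∧ ∀ i, x ∈ cA (τ i) := by
  classical
  have hpre : ∀ m n, m ≤ n → s m <+: s n := by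
    intro m n hmn
    induction n, hmn using Nat.le_induction with
    | base => exact List.prefix_rfl
    | succ n _ ih =>
      obtain ⟨u, hu⟩ := hs n
      rw [hu]
      exact ih.trans (List.prefix_append _ _)
  refine ⟨fun i => if h : ∃ m, i < (s m).length then
      (s (Nat.find h))[i]'(Nat.find_spec h) else (Cov.one x, x), ?_, ?_⟩
  · intro m i hi
    have h : ∃ m, i < (s m).length := ⟨m, hi⟩
    simp only [h, dif_pos]
    have hle : Nat.find h ≤ m := Nat.find_min' h hi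
    have hp := hpre _ _ hle
    rw [List.getElem?_eq_getElem hi]
    congr 1
    exact (List.IsPrefix.getElem hp (Nat.find_spec h)).symm
  · intro i
    by_cases h : ∃ m, i < (s m).length
    · simp only [h, dif_pos]
      exact hx (Nat.find h) _ (List.getElem_mem _)
    · simp only [h, dif_neg, not_false_eq_true]
      exact mem_cA_one x x

/-- The current closed set of a history. -/
def cur : List (Set X) → Set X
  | [] => univ
  | F :: _ => F

section machine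

variable (EE : List (Mv X) → List (Set X) → Set X → X → Set X)
variable (tt : List (Mv X) → List (Set X) → Set X → X → List (Mv X))

/-- The family of positions after a move of the second player. -/
def nextP (p : List X → List (Mv X) × List (Set X)) (F : Set X) :
    List X → List (Mv X) × List (Set X)
  | [] => ([], [])
  | a :: l => ((p l).1 ++ tt (p l).1 (p l).2 (cur (p l).2 ∩ F) a,
      EE (p l).1 (p l).2 (cur (p l).2 ∩ F) a :: (p l).2)

end machine

theorem strat_of_wGame (hX : InNP X) (hW : WGame X) : Nonempty (Strat X) := by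
  classical
  have _i0 : T4Space X := hX.t4
  have _i1 : ParacompactSpace X := InNP.paracompact hX
  obtain ⟨H, hH1, hH2⟩ := kernel hX
  obtain ⟨U, Q, hU, hQ, hWin⟩ := hW
  have hstep := fun (s : List (Mv X)) (h : List (Set X)) (R : Set X) =>
    step H (Q h) s (U h) (hU h).1 (hU h).2 R
  choose EE tt hE1 hE2 hE3 hE4 hE5 using hstep
  let P : Type := List X → List (Mv X) × List (Set X)
  let inv : ℕ × P → Prop := fun σ =>
    (∀ l : List X, l.length = σ.1 → IsClosed (cur (σ.2 l).2) ∧ cur (σ.2 l).2 ⊆ cAs (σ.2 l).1) ∧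
    LocallyFinite (fun l : {l : List X // l.length = σ.1} => cur (σ.2 l.1).2)
  let L : ℕ × P → Set X := fun σ =>
    ⋃ l : {l : List X // l.length = σ.1}, Ker H (Q (σ.2 l.1).2) (σ.2 l.1).1 ∩ cur (σ.2 l.1).2
  let nxt : ℕ × P → Set X → ℕ × P := fun σ F => (σ.1 + 1, nextP EE tt σ.2 F)
  have inv_init : inv (0, fun _ => ([], [])) := by
    refine ⟨fun l _ => ⟨isClosed_univ, fun x _ => ?_⟩, ?_⟩
    · simp [cAs]
    · have hfin : Finite {l : List X // l.length = 0} := by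
        refine Finite.of_injective (fun _ => ()) ?_
        rintro ⟨l, hl⟩ ⟨l', hl'⟩ -
        rw [List.length_eq_zero_iff] at hl hl'
        subst hl hl'
        rfl
      exact locallyFinite_of_finite _
  have inv_next : ∀ σ F, inv σ → IsClosed F → Disjoint F (L σ) → inv (nxt σ F) := by
    rintro ⟨n, p⟩ F ⟨h1, h2⟩ hF -
    refine ⟨?_, ?_⟩
    · intro l hl
      cases l with
      | nil => simp [nxt] at hl
      | cons a l =>
        refine ⟨hE1 _ _ _ a, fun x hx => ?_⟩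
        have hxE : x ∈ EE (p l).1 (p l).2 (cur (p l).2 ∩ F) a := hx
        have hl' : l.length = n := by simpa [nxt] using hl
        show x ∈ cAs ((p l).1 ++ tt (p l).1 (p l).2 (cur (p l).2 ∩ F) a)
        rw [cAs_append]
        exact ⟨(h1 l hl').2 (hE3 _ _ _ a hxE).1,
          oAs_subset_cAs _ ((hE4 _ _ _ a ⟨x, hxE⟩).1 hxE)⟩
    · refine locallyFinite_step n (fun l => cur (p l).2) (fun l => cur (nextP EE tt p F l).2) h2
        ?_ ?_
      · intro a l _ x hx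
        exact (hE3 _ _ _ a hx).1
      · intro l _
        exact hE2 _ _ _
  have hlcs : ∀ σ, inv σ → LCS (L σ) := by
    rintro ⟨n, p⟩ ⟨h1, h2⟩
    refine LCS_of_locallyFinite _ ?_ (h2.subset fun l => inter_subset_right)
    rintro ⟨l, hl⟩
    exact (isCompact_Ker H (Q (p l).2) (hH2 _ (hQ _)) (p l).1).inter_right (h1 l hl).1
  refine ⟨{ St := ℕ × P, init := (0, fun _ => ([], [])), inv := inv, L := L, next := nxt,
            inv_init := inv_init, inv_next := inv_next, lcs := hlcs, win := ?_ }⟩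
  intro σ F hσ0 hFc hFd hFL hσn
  by_contra hne
  obtain ⟨x, hx⟩ := nonempty_iff_ne_empty.2 hne
  rw [mem_iInter] at hx
  have hinv : ∀ n, inv (σ n) := by
    intro n
    induction n with
    | zero => rw [hσ0]; exact inv_init
    | succ n ih => rw [hσn]; exact inv_next _ _ ih (hFc n) (hFL n)
  have hσ1 : ∀ n, (σ n).1 = n := by
    intro n
    induction n with
    | zero => rw [hσ0]
    | succ n ih =>
      rw [hσn]
      show (σ n).1 + 1 = n + 1
      rw [ih]
  have hσ2 : ∀ n, (σ (n + 1)).2 = nextP EE tt (σ n).2 (F n) := by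
    intro n
    rw [hσn]
  -- the step along the branch
  have hbr : ∀ n (l : {l : List X // l.length = n ∧ x ∈ cur ((σ n).2 l).2}), ∃ a : X,
      x ∈ EE ((σ n).2 l.1).1 ((σ n).2 l.1).2 (cur ((σ n).2 l.1).2 ∩ F n) a := by
    rintro n ⟨l, hl, hxl⟩
    have hl' : l.length = (σ n).1 := by rw [hσ1]; exact hl
    have h3 := hE5 ((σ n).2 l).1 ((σ n).2 l).2 (cur ((σ n).2 l).2 ∩ F n)
      (((hinv n).1 l hl').1.inter (hFc n)) (inter_subset_left.trans ((hinv n).1 l hl').2) (by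
        rw [disjoint_left]
        rintro z ⟨hz1, hz2⟩ hz3
        exact disjoint_left.1 (hFL n) hz2 (mem_iUnion.2 ⟨⟨l, hl'⟩, hz3, hz1⟩))
    exact mem_iUnion.1 (h3 ⟨hxl, hx n⟩)
  choose g hg using hbr
  let LL : (n : ℕ) → {l : List X // l.length = n ∧ x ∈ cur ((σ n).2 l).2} := fun n =>
    Nat.rec ⟨[], rfl, by rw [hσ0]; trivial⟩
      (fun n l => ⟨g n l :: l.1, by simp [l.2.1], by rw [hσ2]; exact hg n l⟩) n
  obtain ⟨ll, g', hl0, hlen, hxl, hls, hgg⟩ : ∃ (ll : ℕ → List X) (g' : ℕ → X), ll 0 = [] ∧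
      (∀ n, (ll n).length = n) ∧ (∀ n, x ∈ cur ((σ n).2 (ll n)).2) ∧
      (∀ n, ll (n + 1) = g' n :: ll n) ∧
      (∀ n, x ∈ EE ((σ n).2 (ll n)).1 ((σ n).2 (ll n)).2 (cur ((σ n).2 (ll n)).2 ∩ F n) (g' n)) :=
    ⟨fun n => (LL n).1, fun n => g n (LL n), rfl, fun n => (LL n).2.1, fun n => (LL n).2.2,
      fun n => rfl, fun n => hg n (LL n)⟩
  have hσ02 : (σ 0).2 = fun _ => ([], []) := by rw [hσ0]
  let G : ℕ → Set X := fun n => cur ((σ (n + 1)).2 (ll (n + 1))).2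
  have hpos : ∀ n, (σ (n + 1)).2 (ll (n + 1)) =
      (((σ n).2 (ll n)).1 ++ tt ((σ n).2 (ll n)).1 ((σ n).2 (ll n)).2
        (cur ((σ n).2 (ll n)).2 ∩ F n) (g' n),
      EE ((σ n).2 (ll n)).1 ((σ n).2 (ll n)).2 (cur ((σ n).2 (ll n)).2 ∩ F n)
        (g' n) :: ((σ n).2 (ll n)).2) := by
    intro n
    rw [hσ2, hls]
    rfl
  have hGE : ∀ n, G n = EE ((σ n).2 (ll n)).1 ((σ n).2 (ll n)).2
      (cur ((σ n).2 (ll n)).2 ∩ F n) (g' n) := by
    intro n
    show cur ((σ (n + 1)).2 (ll (n + 1))).2 = _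
    rw [hpos]
    rfl
  have hxG : ∀ n, x ∈ G n := fun n => hxl (n + 1)
  have hhist : ∀ n, ((σ n).2 (ll n)).2 = hist G n := by
    intro n
    induction n with
    | zero => rw [hσ02]; rfl
    | succ n ih =>
      rw [hpos]
      show _ :: _ = G n :: hist G n
      rw [← ih, hGE]
  have hnonempty : ∀ n, (EE ((σ n).2 (ll n)).1 ((σ n).2 (ll n)).2
      (cur ((σ n).2 (ll n)).2 ∩ F n) (g' n)).Nonempty := fun n => ⟨x, hgg n⟩
  obtain ⟨x', hx'1, hx'2⟩ := hWin G
    (fun n => by rw [hGE]; exact hE1 _ _ _ _)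
    (fun n => by
      intro z hz
      rw [hGE] at hz
      exact (hE3 _ _ _ _ hz).1)
    (fun n => by
      obtain ⟨V, hV1, hV2⟩ := (hE4 _ _ _ _ (hnonempty n)).2.2
      rw [← hhist, hGE]
      exact ⟨V, hV1, hV2⟩)
    ⟨x, mem_iInter.2 hxG⟩
  rw [mem_iInter] at hx'2
  have hsucc : ∀ m, ∃ u, ((σ (m + 1)).2 (ll (m + 1))).1 = ((σ m).2 (ll m)).1 ++ u := by
    intro m
    rw [hpos]
    exact ⟨_, rfl⟩
  obtain ⟨τ, hτ1, hτ2⟩ := exists_limit (fun m => ((σ m).2 (ll m)).1) hsucc x' (by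
    intro m
    cases m with
    | zero =>
      show x' ∈ cAs ((σ 0).2 (ll 0)).1
      rw [hσ02]
      simp [cAs]
    | succ m =>
      exact ((hinv (m + 1)).1 _ (by rw [hσ1]; exact hlen (m + 1))).2 (hx'2 m))
  obtain ⟨hHo, hHx⟩ := hH1 τ x' hτ2
  obtain ⟨w, hw1, hw2⟩ := mem_closure_iff.1 hx'1 (H τ x') hHo hHx
  obtain ⟨m, hm⟩ := mem_iUnion.1 hw2
  have h3 := (hE4 _ _ _ _ (hnonempty m)).2.1
  refine h3 ⟨τ, x', hτ2, ?_, ⟨w, hw1, ?_⟩⟩
  · have h4 := hτ1 (m + 1)
    simp only [hpos] at h4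
    exact h4
  · rw [hhist]
    exact hm

end Pool.Agent.W3e58c0b
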