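import Pool.Agent.W_3e58c0b_h78.TreeBasic

/-!
# The tree space is Hausdorff (helper78)
-/

set_option autoImplicit false

namespace Pool.Agent.W3e58c0b

open Set Topology

variable {E A P : Type} (τ : P → ℕ → E × A)

theorem t2b_mem_cons {s : List (E × A)} {x : E × A} {t : List (E × A)} {q : TSp τ}
    (h : q ∈ Cone τ (s ++ x :: t)) : path τ q s.length = some x := by
  have h1 := h s.length (by simp)
  rw [h1]
  simp

theorem t2b_leaf_none (s : List (E × A)) (e : E) :
    path τ (TPt.leaf s e : TSp τ) s.length = none := by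
  show s[s.length]? = none
  simp

theorem t2b_cone_mono {s s' : List (E × A)} (h : s <+: s') : Cone τ s' ⊆ Cone τ s := by
  obtain ⟨t, rfl⟩ := h
  intro q hq i hi
  rw [hq i (by rw [List.length_append]; omega), List.getElem?_append_left hi]

theorem t2b_prefix {s s' : List (E × A)} {q : TSp τ} (h : q ∈ Cone τ s) (h' : q ∈ Cone τ s')
    (hl : s.length ≤ s'.length) : s <+: s' := by
  rw [List.prefix_iff_getElem?]
  intro i hi
  have h1 := h i hi
  rw [h' i (hi.trans_le hl)] at h1
  rw [h1, List.getElem?_eq_getElem hi]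

theorem t2b_leaf_mem (s : List (E × A)) (e : E) : (TPt.leaf s e : TSp τ) ∈ Cone τ s :=
  fun _ _ => rfl

theorem t2b_leaf_prefix {s s' : List (E × A)} {e : E} (h : (TPt.leaf s' e : TSp τ) ∈ Cone τ s) :
    s <+: s' := by
  rw [List.prefix_iff_getElem?]
  intro i hi
  have h1 : s'[i]? = s[i]? := h i hi
  rw [h1, List.getElem?_eq_getElem hi]

theorem t2b_Nb_cone (s : List (E × A)) (e : E) (n : Finset A) : Nb τ s e n ⊆ Cone τ s := by
  rintro q (rfl | ⟨j, -, hq⟩)
  · exact t2b_leaf_mem τ s e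
  · exact t2b_cone_mono τ (List.prefix_append _ _) hq

theorem t2b_leaf_self (s : List (E × A)) (e : E) (n : Finset A) : (TPt.leaf s e : TSp τ) ∈ Nb τ s e n :=
  Or.inl rfl

/-- Basic neighbourhoods are open. Adapt the proof of the version with `A = ℕ` in
`Pool/Agent/W_3e58c0_h78/TreeT2.lean` (there `j ≥ n` has the role of `a ∉ F`). -/
theorem isOpen_Nb (s : List (E × A)) (e : E) (F : Finset A) : IsOpen (Nb τ s e F) := by
  intro s' e' hm
  rcases hm with hm | ⟨j, hj, hm⟩
  · injection hm with h1 h2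
    subst h1 h2
    exact ⟨F, Subset.rfl⟩
  · refine ⟨∅, fun q hq => Or.inr ⟨j, hj, ?_⟩⟩
    exact t2b_cone_mono τ (t2b_leaf_prefix τ hm) (t2b_Nb_cone τ s' e' ∅ hq)

theorem t2b_pt_leaf (p : P) (s : List (E × A)) (e : E) :
    ∃ n, (TPt.pt p : TSp τ) ∉ Nb τ s e n := by
  by_cases h : ∃ j, (TPt.pt p : TSp τ) ∈ Cone τ (s ++ [(e, j)])
  · obtain ⟨j, hj⟩ := h
    refine ⟨{j}, ?_⟩
    rintro (h1 | ⟨j', hj', h1⟩)
    · cases h1
    · have h2 := t2b_mem_cons τ hj
      rw [t2b_mem_cons τ h1] at h2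
      injection h2 with h3
      injection h3 with h4 h5
      exact hj' (Finset.mem_singleton.2 h5)
  · refine ⟨∅, ?_⟩
    rintro (h1 | ⟨j', -, h1⟩)
    · cases h1
    · exact h ⟨j', h1⟩

theorem t2b_leaf_leaf (s s' : List (E × A)) (e e' : E) (hl : s.length ≤ s'.length)
    (hne : (TPt.leaf s e : TSp τ) ≠ TPt.leaf s' e') :
    ∃ m n, Disjoint (Nb τ s e m) (Nb τ s' e' n) := by
  by_cases hp : s <+: s'
  · obtain ⟨t, rfl⟩ := hp
    cases t with
    | nil =>
      rw [List.append_nil] at hne ⊢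
      refine ⟨∅, ∅, ?_⟩
      rw [Set.disjoint_left]
      rintro q (rfl | ⟨j, -, h1⟩) (h2 | ⟨j', -, h2⟩)
      · exact hne h2
      · have h3 := t2b_mem_cons τ h2
        rw [t2b_leaf_none] at h3
        cases h3
      · subst h2
        have h3 := t2b_mem_cons τ h1
        rw [t2b_leaf_none] at h3
        cases h3
      · have h3 := t2b_mem_cons τ h1
        rw [t2b_mem_cons τ h2] at h3
        injection h3 with h4
        injection h4 with h5 h6
        exact hne (by rw [h5])
    | cons x t =>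
      refine ⟨{x.2}, ∅, ?_⟩
      rw [Set.disjoint_left]
      intro q h1 h2
      have h3 := t2b_mem_cons τ (t2b_Nb_cone τ _ _ _ h2)
      rcases h1 with rfl | ⟨j, hj, h1⟩
      · rw [t2b_leaf_none] at h3
        cases h3
      · rw [t2b_mem_cons τ h1] at h3
        injection h3 with h4
        rw [← h4] at hj
        exact hj (Finset.mem_singleton_self _)
  · refine ⟨∅, ∅, ?_⟩
    rw [Set.disjoint_left]
    intro q h1 h2
    exact hp (t2b_prefix τ (t2b_Nb_cone τ _ _ _ h1) (t2b_Nb_cone τ _ _ _ h2) hl)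

/-- The tree space is Hausdorff. Adapt the proof of the version with `A = ℕ` in
`Pool/Agent/W_3e58c0_h78/TreeT2.lean` (where `j + 1` is used, use the finite set `{j}`). -/
instance tsp_t2 : T2Space (TSp τ) := by
  refine ⟨fun x y hne => ?_⟩
  cases x with
  | pt p =>
    cases y with
    | pt p' =>
      exact ⟨{(TPt.pt p : TSp τ)}, {(TPt.pt p' : TSp τ)}, isOpen_pt τ p, isOpen_pt τ p', rfl, rfl,
        Set.disjoint_singleton.2 hne⟩
    | leaf s e =>
      obtain ⟨n, hn⟩ := t2b_pt_leaf τ p s e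
      exact ⟨{(TPt.pt p : TSp τ)}, Nb τ s e n, isOpen_pt τ p, isOpen_Nb τ s e n, rfl,
        t2b_leaf_self τ s e n, Set.disjoint_singleton_left.2 hn⟩
  | leaf s e =>
    cases y with
    | pt p =>
      obtain ⟨n, hn⟩ := t2b_pt_leaf τ p s e
      exact ⟨Nb τ s e n, {(TPt.pt p : TSp τ)}, isOpen_Nb τ s e n, isOpen_pt τ p,
        t2b_leaf_self τ s e n, rfl, Set.disjoint_singleton_right.2 hn⟩
    | leaf s' e' =>
      rcases le_total s.length s'.length with hl | hl
      · obtain ⟨m, n, h⟩ := t2b_leaf_leaf τ s s' e e' hl hne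
        exact ⟨_, _, isOpen_Nb τ s e m, isOpen_Nb τ s' e' n, t2b_leaf_self τ s e m,
          t2b_leaf_self τ s' e' n, h⟩
      · obtain ⟨m, n, h⟩ := t2b_leaf_leaf τ s' s e' e hl hne.symm
        exact ⟨_, _, isOpen_Nb τ s e n, isOpen_Nb τ s' e' m, t2b_leaf_self τ s e n,
          t2b_leaf_self τ s' e' m, h.symm⟩

end Pool.Agent.W3e58c0b
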