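import Pool.Agent.W_3e58c0b_h78.Basic
import Pool.Agent.W_3e58c0b_h78.TreeT2
import Pool.Agent.W_3e58c0b_h78.TreePara

/-!
# What normality of the product with the tree space gives (helper78)
-/

set_option autoImplicit false

namespace Pool.Agent.W3e58c0b

open Set Topology

open Pool.Agent.W3e58c0h78 (InNP)

/-- Proof (adapt `Pool/Agent/W_3e58c0_h78/Kernel.lean`). Let `P` be the type of all pairs `(τ, x)`
with `x ∈ cA (τ i)` for all `i`, and let `Y = TSp (fun p : P => p.1.1)` with `E = Cov X`, `A = X`. The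
set `C = {(x, pt p) | x = p.1.2}` is closed: at a point `(x', leaf s E)` choose an open
neighbourhood `O` of `x'` which meets only finitely many of the sets `E.U a`, `a ∈ F`; then
`O ×ˢ Nb s E F` does not meet `C`: if `(x, pt p)` is in it, `p = (τ, x)`, then
`τ s.length = (E, a)` with `a ∉ F` and `x ∈ closure (E.U a)`, `x ∈ O`, so that `O` meets `E.U a`.
The rest is as in the older version. -/
theorem kernel {X : Type} [TopologicalSpace X] (hX : InNP X) :
    ∃ H : (ℕ → Mv X) → X → Set X,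
      (∀ τ x, (∀ i, x ∈ cA (τ i)) → IsOpen (H τ x) ∧ x ∈ H τ x) ∧
      ∀ Q : Set X, IsCompact Q → ∀ (s : List (Mv X)) (E : Cov X), ∃ F : Finset X,
        ∀ (τ : ℕ → Mv X) (x : X), (∀ i, x ∈ cA (τ i)) → ∀ a, a ∉ F →
          Pre (s ++ [(E, a)]) τ → Disjoint (H τ x) Q := by
  classical
  haveI := hX.1
  let P : Type := {p : (ℕ → Mv X) × X // ∀ i, p.2 ∈ cA (p.1 i)}
  let σ : P → ℕ → Cov X × X := fun p => p.1.1
  have hN : NormalSpace (X × TSp σ) := hX.2 (TSp σ)
  let D₀ : Set (X × TSp σ) := {q | ∃ s e, q.2 = TPt.leaf s e}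
  let C : Set (X × TSp σ) := {q | ∃ p : P, q.2 = TPt.pt p ∧ q.1 = p.1.2}
  have hD : IsClosed D₀ := by
    rw [← isOpen_compl_iff]
    have h1 : D₀ᶜ = ⋃ p : P, Prod.snd ⁻¹' ({(TPt.pt p : TSp σ)} : Set (TSp σ)) := by
      ext q
      obtain ⟨x, q⟩ := q
      simp only [mem_compl_iff, mem_iUnion, mem_preimage, mem_singleton_iff]
      constructor
      · intro h
        cases q with
        | leaf s e => exact absurd ⟨s, e, rfl⟩ h
        | pt p => exact ⟨p, rfl⟩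
      · rintro ⟨p, hp⟩ ⟨s, e, he⟩
        have h2 : (TPt.leaf s e : TSp σ) = TPt.pt p := he.symm.trans hp
        cases h2
    rw [h1]
    exact isOpen_iUnion fun p => (isOpen_pt σ p).preimage continuous_snd
  have hC : IsClosed C := by
    rw [← isOpen_compl_iff, isOpen_iff_forall_mem_open]
    rintro ⟨x', q⟩ hq
    cases q with
    | pt p =>
      have hx' : x' ≠ p.1.2 := fun h => hq ⟨p, rfl, h⟩
      refine ⟨{p.1.2}ᶜ ×ˢ ({(TPt.pt p : TSp σ)} : Set (TSp σ)), ?_,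
        isOpen_compl_singleton.prod (isOpen_pt σ p), ⟨hx', rfl⟩⟩
      rintro ⟨x, q'⟩ ⟨hx, hq'⟩ ⟨p', hp', hxp⟩
      have h1 : (TPt.pt p : TSp σ) = TPt.pt p' := (Eq.symm hq').trans hp'
      have h2 : p = p' := by
        cases h1
        rfl
      subst h2
      exact hx hxp
    | leaf s e =>
      obtain ⟨t, ht, hfin⟩ := e.locallyFinite_U x'
      obtain ⟨O, hOt, hO, hxO⟩ := mem_nhds_iff.1 ht
      refine ⟨O ×ˢ Nb σ s e hfin.toFinset, ?_, hO.prod (isOpen_Nb σ s e hfin.toFinset),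
        ⟨hxO, Or.inl rfl⟩⟩
      rintro ⟨x, q'⟩ ⟨hx, hq'⟩ ⟨p, hp, hxp⟩
      have hp' : q' = TPt.pt p := hp
      have hxp' : x = p.1.2 := hxp
      subst hp'
      rcases hq' with h | ⟨j, hj, h⟩
      · cases h
      · have h1 := h s.length (by simp)
        have h2 : path σ (TPt.pt p) s.length = some (p.1.1 s.length) := rfl
        rw [h2, List.getElem?_concat_length] at h1
        have h3 : p.1.1 s.length = (e, j) := Option.some.inj h1
        have h4 := p.2 s.length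
        rw [h3, ← hxp'] at h4
        have h5 : x ∈ closure (e.U j) := h4
        obtain ⟨y, hyO, hyU⟩ := mem_closure_iff.1 h5 O hO hx
        apply hj
        rw [Set.Finite.mem_toFinset]
        exact ⟨y, hyU, hOt hyO⟩
  have hdis : Disjoint C D₀ := by
    rw [Set.disjoint_left]
    rintro ⟨x, q⟩ ⟨p, hp, _⟩ ⟨s, e, he⟩
    have h2 : (TPt.leaf s e : TSp σ) = TPt.pt p := (Eq.symm he).trans hp
    cases h2
  obtain ⟨O, O', hO, hO', hCO, hDO, hOO⟩ := normal_separation hC hD hdis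
  let f : P → X → X × TSp σ := fun p x' => (x', TPt.pt p)
  have hf : ∀ p, Continuous (f p) := fun p => continuous_id.prodMk continuous_const
  let H : (ℕ → Mv X) → X → Set X := fun τ x =>
    if h : ∀ i, x ∈ cA (τ i) then f ⟨(τ, x), h⟩ ⁻¹' O else univ
  have hH : ∀ τ x, (h : ∀ i, x ∈ cA (τ i)) → H τ x = f ⟨(τ, x), h⟩ ⁻¹' O :=
    fun τ x h => dif_pos h
  refine ⟨H, ?_, ?_⟩
  · intro τ x h
    rw [hH τ x h]
    refine ⟨hO.preimage (hf _), ?_⟩
    exact hCO ⟨⟨(τ, x), h⟩, rfl, rfl⟩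
  · intro Q hQ s E
    have h1 : Q ×ˢ ({(TPt.leaf s E : TSp σ)} : Set (TSp σ)) ⊆ O' := by
      rintro ⟨x, q⟩ ⟨_, hq⟩
      exact hDO ⟨s, E, hq⟩
    obtain ⟨u, v, _, hv, hQu, hsv, huv⟩ := generalized_tube_lemma hQ isCompact_singleton hO' h1
    obtain ⟨F, hF⟩ := (isOpen_iff_Nb σ v).1 hv s E (hsv rfl)
    refine ⟨F, fun τ x h j hj hpre => ?_⟩
    rw [hH τ x h, Set.disjoint_left]
    intro x' hx' hxQ
    have h2 : (TPt.pt ⟨(τ, x), h⟩ : TSp σ) ∈ Nb σ s E F :=
      Or.inr ⟨j, hj, fun i hi => (hpre i hi).symm⟩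
    have h3 : f ⟨(τ, x), h⟩ x' ∈ O' := huv ⟨hQu hxQ, hF h2⟩
    exact Set.disjoint_left.1 hOO hx' h3

end Pool.Agent.W3e58c0b
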