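import Pool.Agent.W_3e58c0b_h78.Basic

/-!
# Spaces for which the first player wins the game (helper78)
-/

set_option autoImplicit false

namespace Pool.Agent.W3e58c0b

open Set Topology

section InstAux

variable {X : Type}

/-- The current set of a history. -/
def instCur (h : List (Set X)) : Set X := h.headD univ

open Classical in
/-- One point of `A`, as a set, if there is one. -/
noncomputable def instPt (A : Set X) : Set X := if h : A.Nonempty then {h.some} else ∅

theorem instPt_compact [TopologicalSpace X] (A : Set X) : IsCompact (instPt A) := by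
  unfold instPt
  split_ifs
  · exact isCompact_singleton
  · exact isCompact_empty

theorem instPt_spec {A : Set X} (h : A.Nonempty) : ∃ z, z ∈ instPt A ∧ z ∈ A := by
  refine ⟨h.some, ?_, h.some_mem⟩
  unfold instPt
  rw [dif_pos h]
  exact mem_singleton _

theorem inst_hist_length (F : ℕ → Set X) (n : ℕ) : (hist F n).length = n := by
  induction n with
  | zero => rfl
  | succ n ih => simp [hist, ih]

end InstAux

/-- Proof. For a list `h` of sets let `cur h` be its head (`univ` if `h` is empty). Let `U h` be the set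
of all open sets `V` which for every `i ≤ h.length` meet only finitely many of the sets `N i j`,
`j : J i` (they cover `X` because finitely many locally finite families are given). Let `Q h` be the
union of `S h.length` and, if there are only finitely many pairs `(i, j)` with `i < h.length` such that
`N i j` meets `cur h`, the finite set which contains one point of `N i j ∩ cur h` for each of these
pairs. Let `F` be as in the definition of the game, `x ∈ ⋂ n, F n`. If `x` is in the closure of
`⋃ n, S n` we are done, as `hist F n` has length `n`. Otherwise let `C` be the compact set of `x`,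
`D = closure (⋃ n, Q (hist F n))`. We show that `C ∩ (D ∩ F m)` is nonempty for every `m`; then
compactness (as in `W_3e58c0_h78/InstB.lean`, `qCond_mixed`) gives a point of
`C ∩ D ∩ ⋂ m, F m`. If it is empty then `C` is contained in the open set `(D ∩ F m)ᶜ`, so that there are
`i`, `j` with `x ∈ N i j ⊆ (D ∩ F m)ᶜ`. Let `n = max i m`. Then `F n` is contained in a member of
`U (hist F n)`, which meets only finitely many of the sets `N i' j'`, `i' ≤ n`, and `N i j` meets `F n`
(in `x`). So `Q (hist F (n + 1))` contains a point of `N i j ∩ F n`, which is in `D ∩ F m`, a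
contradiction. -/
theorem wGame_of_network {X : Type} [TopologicalSpace X] [T2Space X] (S : ℕ → Set X)
    (hS : ∀ n, IsCompact (S n)) (J : ℕ → Type) (N : (i : ℕ) → J i → Set X)
    (hN : ∀ i, LocallyFinite (N i))
    (h : ∀ x, x ∈ closure (⋃ n, S n) ∨ ∃ C : Set X, IsCompact C ∧
      ∀ U, IsOpen U → C ⊆ U → ∃ i j, x ∈ N i j ∧ N i j ⊆ U) : WGame X := by
  classical
  let P : List (Set X) → Set (Σ i, J i) := fun l =>
    {p | p.1 < l.length ∧ (N p.1 p.2 ∩ instCur l).Nonempty}
  let U : List (Set X) → Set (Set X) := fun l =>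
    {V | IsOpen V ∧ ∀ i, i ≤ l.length → {j | (N i j ∩ V).Nonempty}.Finite}
  let Q : List (Set X) → Set X := fun l =>
    S l.length ∪ (if (P l).Finite then ⋃ p ∈ P l, instPt (N p.1 p.2 ∩ instCur l) else ∅)
  refine ⟨U, Q, ?_, ?_, ?_⟩
  · intro l
    refine ⟨fun V hV => hV.1, ?_⟩
    refine eq_univ_of_forall fun x => ?_
    choose t ht1 ht2 using fun i => hN i x
    have hW : (⋂ i ∈ Finset.range (l.length + 1), t i) ∈ 𝓝 x :=
      (Filter.biInter_finset_mem _).2 fun i _ => ht1 i
    refine ⟨interior (⋂ i ∈ Finset.range (l.length + 1), t i), ⟨isOpen_interior, ?_⟩,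
      mem_interior_iff_mem_nhds.2 hW⟩
    intro i hi
    refine (ht2 i).subset ?_
    rintro j ⟨z, hz1, hz2⟩
    have h3 := interior_subset hz2
    simp only [mem_iInter, Finset.mem_range] at h3
    exact ⟨z, hz1, h3 i (Nat.lt_succ_of_le hi)⟩
  · intro l
    refine (hS _).union ?_
    split_ifs with hfin
    · exact hfin.isCompact_biUnion fun p _ => instPt_compact _
    · exact isCompact_empty
  intro F hFc hFd hFU hne
  obtain ⟨x, hx⟩ := hne
  have hanti : Antitone F := antitone_nat_of_succ_le hFd
  have hxm : ∀ m, x ∈ F m := fun m => mem_iInter.1 hx m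
  rcases h x with hx0 | ⟨C, hC, hCU⟩
  · refine ⟨x, closure_mono ?_ hx0, hx⟩
    refine iUnion_mono fun n => ?_
    intro z hz
    refine Or.inl ?_
    rw [inst_hist_length]
    exact hz
  set D : Set X := closure (⋃ n, Q (hist F n)) with hD
  have hPfin : ∀ n, (P (hist F (n + 1))).Finite := by
    intro n
    obtain ⟨V, hV, hFV⟩ := hFU n
    have h1 : (⋃ i ∈ Iic n, (fun j => (⟨i, j⟩ : Σ i, J i)) '' {j | (N i j ∩ V).Nonempty}).Finite := by
      refine (finite_Iic n).biUnion fun i hi => ?_
      refine (hV.2 i ?_).image _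
      rw [inst_hist_length]
      exact hi
    refine h1.subset ?_
    rintro ⟨i, j⟩ ⟨hi, z, hz1, hz2⟩
    rw [inst_hist_length] at hi
    have hz3 : z ∈ F n := hz2
    simp only [mem_iUnion]
    exact ⟨i, Nat.lt_succ_iff.1 hi, j, ⟨z, hz1, hFV hz3⟩, rfl⟩
  have hne : ∀ m, (C ∩ (D ∩ F m)).Nonempty := by
    intro m
    by_contra hcon
    have hsub : C ⊆ (D ∩ F m)ᶜ := fun z hz hz' => hcon ⟨z, hz, hz'⟩
    obtain ⟨i, j, hij1, hij2⟩ := hCU _ (isClosed_closure.inter (hFc m)).isOpen_compl hsub
    have hmeet : (N i j ∩ instCur (hist F (max i m + 1))).Nonempty := ⟨x, hij1, hxm (max i m)⟩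
    have hp : (⟨i, j⟩ : Σ i, J i) ∈ P (hist F (max i m + 1)) := by
      refine ⟨?_, hmeet⟩
      rw [inst_hist_length]
      exact Nat.lt_succ_of_le (le_max_left _ _)
    obtain ⟨z, hz1, hz2⟩ := instPt_spec hmeet
    have hzQ : z ∈ Q (hist F (max i m + 1)) := by
      refine Or.inr ?_
      rw [if_pos (hPfin _)]
      exact mem_biUnion hp hz1
    have hzF : z ∈ F (max i m) := hz2.2
    exact hij2 hz2.1 ⟨subset_closure (mem_iUnion.2 ⟨_, hzQ⟩), hanti (le_max_right _ _) hzF⟩
  obtain ⟨x', hx'⟩ := IsCompact.nonempty_iInter_of_directed_nonempty_isCompact_isClosed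
    (fun m => C ∩ (D ∩ F m))
    (by
      refine (antitone_nat_of_succ_le fun m => ?_).directed_ge
      exact inter_subset_inter_right _ (inter_subset_inter_right _ (hanti (Nat.le_succ m))))
    hne
    (fun m => hC.inter_right (isClosed_closure.inter (hFc m)))
    (fun m => hC.isClosed.inter (isClosed_closure.inter (hFc m)))
  exact ⟨x', (mem_iInter.1 hx' 0).2.1, mem_iInter.2 fun m => (mem_iInter.1 hx' m).2.2⟩

end Pool.Agent.W3e58c0b
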