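import Pool.Agent.W_3e58c0b_h78.Basic2

/-!
# Maps for which the first player wins the game (helper78)
-/

set_option autoImplicit false

namespace Pool.Agent.W3e58c0b

open Set Topology

section Inst2Aux

variable {X : Type}

open Classical in
/-- One point of `A`, as a set, if there is one. -/
noncomputable def inst2Pt (A : Set X) : Set X := if h : A.Nonempty then {h.some} else ∅

theorem inst2Pt_compact [TopologicalSpace X] (A : Set X) : IsCompact (inst2Pt A) := by
  unfold inst2Pt
  split_ifs
  · exact isCompact_singleton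
  · exact isCompact_empty

theorem inst2Pt_spec {A : Set X} (h : A.Nonempty) : ∃ z, z ∈ inst2Pt A ∧ z ∈ A := by
  refine ⟨h.some, ?_, h.some_mem⟩
  unfold inst2Pt
  rw [dif_pos h]
  exact mem_singleton _

theorem inst2_hist_length (F : ℕ → Set X) (n : ℕ) : (hist F n).length = n := by
  induction n with
  | zero => rfl
  | succ n ih => simp [hist, ih]

end Inst2Aux

/-- Proof. For a list `h` of sets let `U h` be the set of all open sets `V` which for every
`i ≤ h.length` meet only finitely many of the sets `N i j`, `j : J i` (they cover `X` because finitely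
many locally finite families are given). Let `Q h` be the union of `S h.length` and, if there are only
finitely many pairs `(i, j)` with `i < h.length` such that `N i j` meets `cur h`, the finite set which
contains one point of `N i j ∩ cur h` for each of these pairs. Given `z` let `x` be as in the
hypothesis and let `F` be a play with `x ∈ F n` for all `n`. If `x` is in the closure of
`⋃ n, S n` we are done, as `hist F n` has length `n`, with the point `x`. Otherwise let `C` be the
compact set of `Z` belonging to `x`. Let `P m = Q (hist F m) ∩ cur (hist F m)`; note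
`cur (hist F (m + 1)) = F m`. Suppose first that the family `P m` (`m : ℕ`) is not locally finite at
some point `x'`: then every neighbourhood of `x'` meets `P m` for arbitrarily large `m`; as
`P m ⊆ F n` for `m > n`, the point `x'` is in all the closed sets `F n` and in the closure
of `⋃ n, Q (hist F n)`. Now suppose that the family `P m` is locally finite. The sets `P m` are compact,
hence closed, so the sets `E n = ⋃ m ≥ n, P m` and `f '' E n` are closed. `C ∩ f '' E n` is
nonempty for all `n`: otherwise there are `i`, `j` with `x ∈ N i j ⊆ f ⁻¹' (f '' E n)ᶜ`; for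
`m = max n i`, `F m` is contained in a member of `U (hist F m)`, so it meets only finitely many `N i' j'`
with `i' ≤ m`, and `x ∈ N i j ∩ F m`, so that `Q (hist F (m + 1))` contains a point of `N i j ∩ F m`,
which is in `P (m + 1) ⊆ E n`, a contradiction. By compactness (the sets `C ∩ f '' E n` are
decreasing) there is a `z'` which is in `f '' E n` for all `n`. So `z' ∈ f '' P m` for some `m` and
`z' ∈ f '' P m'` for some `m' > m`, and `P m' ⊆ F m`, which contradicts the condition that
`f '' F m` is disjoint from `f '' P m`. -/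
theorem wGameMap_of_network {X Z : Type} [TopologicalSpace X] [T2Space X] [TopologicalSpace Z]
    [T2Space Z] {f : X → Z} (hf : Continuous f) (hc : IsClosedMap f) (S : ℕ → Set X)
    (hS : ∀ n, IsCompact (S n)) (J : ℕ → Type) (N : (i : ℕ) → J i → Set X)
    (hN : ∀ i, LocallyFinite (N i))
    (h : ∀ z, ∃ x, f x = z ∧ (x ∈ closure (⋃ n, S n) ∨ ∃ C : Set Z, IsCompact C ∧
      ∀ U, IsOpen U → C ⊆ U → ∃ i j, x ∈ N i j ∧ N i j ⊆ f ⁻¹' U)) : WGameMap f := by
  classical
  let P : List (Set X) → Set (Σ i, J i) := fun l =>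
    {p | p.1 < l.length ∧ (N p.1 p.2 ∩ cur l).Nonempty}
  let U : List (Set X) → Set (Set X) := fun l =>
    {V | IsOpen V ∧ ∀ i, i ≤ l.length → {j | (N i j ∩ V).Nonempty}.Finite}
  let Q : List (Set X) → Set X := fun l =>
    S l.length ∪ (if (P l).Finite then ⋃ p ∈ P l, inst2Pt (N p.1 p.2 ∩ cur l) else ∅)
  have hQc : ∀ l, IsCompact (Q l) := by
    intro l
    refine (hS _).union ?_
    split_ifs with hfin
    · exact hfin.isCompact_biUnion fun p _ => inst2Pt_compact _
    · exact isCompact_empty
  refine ⟨U, Q, ?_, hQc, ?_⟩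
  · intro l
    refine ⟨fun V hV => hV.1, ?_⟩
    refine eq_univ_of_forall fun x => ?_
    choose t ht1 ht2 using fun i => hN i x
    have hW : (⋂ i ∈ Finset.range (l.length + 1), t i) ∈ 𝓝 x :=
      (Filter.biInter_finset_mem _).2 fun i _ => ht1 i
    refine ⟨interior (⋂ i ∈ Finset.range (l.length + 1), t i), ⟨isOpen_interior, ?_⟩,
      mem_interior_iff_mem_nhds.2 hW⟩
    intro i hi
    refine (ht2 i).subset ?_
    rintro j ⟨z, hz1, hz2⟩
    have h3 := interior_subset hz2
    simp only [mem_iInter, Finset.mem_range] at h3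
    exact ⟨z, hz1, h3 i (Nat.lt_succ_of_le hi)⟩
  intro z
  obtain ⟨x, hfx, hx⟩ := h z
  refine ⟨x, hfx, ?_⟩
  intro F hFc hFd hxm hFU hFQ
  have hanti : Antitone F := antitone_nat_of_succ_le hFd
  rcases hx with hx0 | ⟨C, hC, hCU⟩
  · refine ⟨x, closure_mono ?_ hx0, mem_iInter.2 hxm⟩
    refine iUnion_mono fun n => ?_
    intro z hz
    refine Or.inl ?_
    rw [inst2_hist_length]
    exact hz
  by_contra hemp
  have hPfin : ∀ n, (P (hist F (n + 1))).Finite := by
    intro n
    obtain ⟨V, hV, hFV⟩ := hFU n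
    have h1 : (⋃ i ∈ Iic n, (fun j => (⟨i, j⟩ : Σ i, J i)) '' {j | (N i j ∩ V).Nonempty}).Finite := by
      refine (finite_Iic n).biUnion fun i hi => ?_
      refine (hV.2 i ?_).image _
      rw [inst2_hist_length]
      exact hi
    refine h1.subset ?_
    rintro ⟨i, j⟩ ⟨hi, z, hz1, hz2⟩
    rw [inst2_hist_length] at hi
    have hz3 : z ∈ F n := hz2
    simp only [mem_iUnion]
    exact ⟨i, Nat.lt_succ_iff.1 hi, j, ⟨z, hz1, hFV hz3⟩, rfl⟩
  -- the compact sets
  let R : ℕ → Set X := fun m => Q (hist F m) ∩ cur (hist F m)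
  have hRF : ∀ n m, n < m → R m ⊆ F n := by
    intro n m hnm y hy
    obtain ⟨k, rfl⟩ : ∃ k, m = k + 1 := ⟨m - 1, by omega⟩
    have hy2 : y ∈ F k := hy.2
    exact hanti (Nat.lt_succ_iff.1 hnm) hy2
  have hRcl : ∀ m, IsClosed (R m) := by
    intro m
    refine (hQc _).isClosed.inter ?_
    rcases m with _ | m
    · exact isClosed_univ
    · exact hFc m
  have hRlf : LocallyFinite R := by
    intro x'
    by_contra hcon
    apply hemp
    have hinf : ∀ t ∈ 𝓝 x', {m | (R m ∩ t).Nonempty}.Infinite := by
      intro t ht hfin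
      exact hcon ⟨t, ht, hfin⟩
    refine ⟨x', ?_, mem_iInter.2 fun n => ?_⟩
    · rw [mem_closure_iff_nhds]
      intro t ht
      obtain ⟨m, y, hy1, hy2⟩ := (hinf t ht).nonempty
      exact ⟨y, hy2, mem_iUnion.2 ⟨m, hy1.1⟩⟩
    · rw [← (hFc n).closure_eq, mem_closure_iff_nhds]
      intro t ht
      obtain ⟨m, ⟨y, hy1, hy2⟩, hm⟩ := (hinf t ht).exists_gt n
      exact ⟨y, hy2, hRF n m hm hy1⟩
  let E : ℕ → Set X := fun n => ⋃ m, R (n + m)
  have hEcl : ∀ n, IsClosed (E n) := by
    intro n
    have h1 : LocallyFinite (fun m => R (n + m)) := by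
      have := hRlf.comp_injective (g := fun m : ℕ => n + m) (fun a b hab => Nat.add_left_cancel hab)
      exact this
    exact h1.isClosed_iUnion fun m => hRcl _
  have hfE : ∀ n, IsClosed (f '' E n) := fun n => hc _ (hEcl n)
  have hEanti : ∀ n, E (n + 1) ⊆ E n := by
    intro n y hy
    obtain ⟨m, hm⟩ := mem_iUnion.1 hy
    refine mem_iUnion.2 ⟨1 + m, ?_⟩
    have h1 : n + (1 + m) = n + 1 + m := by omega
    rw [h1]
    exact hm
  have hne : ∀ n, (C ∩ f '' E n).Nonempty := by
    intro n
    by_contra hcon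
    have hsub : C ⊆ (f '' E n)ᶜ := fun z hz hz' => hcon ⟨z, hz, hz'⟩
    obtain ⟨i, j, hij1, hij2⟩ := hCU _ (hfE n).isOpen_compl hsub
    have hmeet : (N i j ∩ cur (hist F (max i n + 1))).Nonempty := ⟨x, hij1, hxm (max i n)⟩
    have hp : (⟨i, j⟩ : Σ i, J i) ∈ P (hist F (max i n + 1)) := by
      refine ⟨?_, hmeet⟩
      rw [inst2_hist_length]
      exact Nat.lt_succ_of_le (le_max_left _ _)
    obtain ⟨y, hy1, hy2⟩ := inst2Pt_spec hmeet
    have hyQ : y ∈ Q (hist F (max i n + 1)) := by
      refine Or.inr ?_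
      rw [if_pos (hPfin _)]
      exact mem_biUnion hp hy1
    have hyR : y ∈ R (max i n + 1) := ⟨hyQ, hy2.2⟩
    have hyE : y ∈ E n := by
      refine mem_iUnion.2 ⟨max i n + 1 - n, ?_⟩
      have h1 : n + (max i n + 1 - n) = max i n + 1 := by
        have := le_max_right i n
        omega
      rw [h1]
      exact hyR
    exact hij2 hy2.1 (mem_image_of_mem f hyE)
  obtain ⟨z', hz'⟩ := IsCompact.nonempty_iInter_of_directed_nonempty_isCompact_isClosed
    (fun n => C ∩ f '' E n)
    (by
      refine (antitone_nat_of_succ_le fun m => ?_).directed_ge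
      exact inter_subset_inter_right _ (image_mono (hEanti m)))
    hne
    (fun n => hC.inter_right (hfE n))
    (fun n => hC.isClosed.inter (hfE n))
  obtain ⟨p, hp, hpz⟩ := (mem_iInter.1 hz' 0).2
  obtain ⟨m, hm⟩ := mem_iUnion.1 hp
  rw [Nat.zero_add] at hm
  obtain ⟨p', hp', hpz'⟩ := (mem_iInter.1 hz' (m + 1)).2
  obtain ⟨m', hm'⟩ := mem_iUnion.1 hp'
  have h1 : p' ∈ F m := hRF m (m + 1 + m') (by omega) hm'
  exact disjoint_left.1 (hFQ m) (mem_image_of_mem f h1) (by rw [hpz', ← hpz]; exact mem_image_of_mem f hm)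

end Pool.Agent.W3e58c0b
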