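import Mathlib

/-!
# The tree space, version with arbitrary index set (helper78)

Given a family `τ : P → ℕ → E × A` of infinite sequences, the space `TSp τ` has an isolated
point `pt p` for every `p : P` and a point `leaf s e` for every finite list `s` and `e : E`.
The basic neighbourhoods of `leaf s e` are `Nb τ s e F` (`F` a finite subset of `A`): the point
itself and all points whose path starts with `s, (e, a)` for some `a ∉ F`.
-/

set_option autoImplicit false

namespace Pool.Agent.W3e58c0b

open Set Topology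

/-- Points of the tree space. -/
inductive TPt (E A P : Type) : Type where
  | leaf (s : List (E × A)) (e : E) : TPt E A P
  | pt (p : P) : TPt E A P

variable {E A P : Type}

/-- The tree space of a family of sequences. -/
def TSp (_τ : P → ℕ → E × A) : Type := TPt E A P

variable (τ : P → ℕ → E × A)

/-- The path of a point: a finite sequence for a leaf, an infinite one for an isolated point. -/
def path : TSp τ → ℕ → Option (E × A)
  | TPt.leaf s _ => fun i => s[i]?
  | TPt.pt p => fun i => some (τ p i)

/-- The set of points whose path starts with `s`. -/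
def Cone (s : List (E × A)) : Set (TSp τ) := {q | ∀ i, i < s.length → path τ q i = s[i]?}

/-- Basic neighbourhoods of `leaf s e`. -/
def Nb (s : List (E × A)) (e : E) (F : Finset A) : Set (TSp τ) :=
  {q | q = TPt.leaf s e ∨ ∃ a, a ∉ F ∧ q ∈ Cone τ (s ++ [(e, a)])}

theorem Nb_anti {s : List (E × A)} {e : E} {F G : Finset A} (h : F ⊆ G) :
    Nb τ s e G ⊆ Nb τ s e F := by
  rintro q (hq | ⟨a, ha, hq⟩)
  · exact Or.inl hq
  · exact Or.inr ⟨a, fun h' => ha (h h'), hq⟩

open Classical in
instance : TopologicalSpace (TSp τ) where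
  IsOpen U := ∀ s e, (TPt.leaf s e : TSp τ) ∈ U → ∃ F, Nb τ s e F ⊆ U
  isOpen_univ := fun _ _ _ => ⟨∅, subset_univ _⟩
  isOpen_inter := by
    intro U V hU hV s e hm
    obtain ⟨F, hF⟩ := hU s e hm.1
    obtain ⟨G, hG⟩ := hV s e hm.2
    exact ⟨F ∪ G, subset_inter ((Nb_anti τ Finset.subset_union_left).trans hF)
      ((Nb_anti τ Finset.subset_union_right).trans hG)⟩
  isOpen_sUnion := by
    intro S hS s e hm
    obtain ⟨U, hU, hmU⟩ := hm
    obtain ⟨F, hF⟩ := hS U hU s e hmU
    exact ⟨F, hF.trans (subset_sUnion_of_mem hU)⟩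

theorem isOpen_iff_Nb (U : Set (TSp τ)) :
    IsOpen U ↔ ∀ s e, (TPt.leaf s e : TSp τ) ∈ U → ∃ F, Nb τ s e F ⊆ U := Iff.rfl

theorem isOpen_pt (p : P) : IsOpen ({(TPt.pt p : TSp τ)} : Set (TSp τ)) := by
  intro s e hm
  exact absurd hm (by intro h; cases h)

end Pool.Agent.W3e58c0b
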